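import Mathlib

/-! Standard monomials of an ideal of a polynomial ring over a field. -/

set_option autoImplicit false

open MvPolynomial MonomialOrder

namespace Pool.Agent.W461.SL

variable {σ : Type*} (m : MonomialOrder σ) {k : Type*} [Field k]

/-- The set of leading exponents of the nonzero elements of an ideal. -/
def E (K : Ideal (MvPolynomial σ k)) : Set (σ →₀ ℕ) :=
  {a | ∃ f ∈ K, f ≠ 0 ∧ m.degree f = a}

lemma E_mono {K L : Ideal (MvPolynomial σ k)} (h : K ≤ L) : E m K ⊆ E m L := by
  rintro a ⟨f, hf, h0, rfl⟩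
  exact ⟨f, h hf, h0, rfl⟩

lemma E_mul {K L : Ideal (MvPolynomial σ k)} {a b : σ →₀ ℕ} (ha : a ∈ E m K) (hb : b ∈ E m L) :
    a + b ∈ E m (K * L) := by
  obtain ⟨f, hf, hf0, rfl⟩ := ha
  obtain ⟨g, hg, hg0, rfl⟩ := hb
  exact ⟨f * g, Ideal.mul_mem_mul hf hg, mul_ne_zero hf0 hg0, m.degree_mul hf0 hg0⟩

lemma E_top (b : σ →₀ ℕ) : b ∈ E m (⊤ : Ideal (MvPolynomial σ k)) := by
  classical
  refine ⟨monomial b 1, trivial, ?_, ?_⟩
  · simp
  · rw [m.degree_monomial]; simp

lemma E_add {K : Ideal (MvPolynomial σ k)} {a : σ →₀ ℕ} (ha : a ∈ E m K) (b : σ →₀ ℕ) :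
    a + b ∈ E m K := by
  have := E_mul m ha (E_top m (k := k) b)
  simpa using this

lemma E_of_le {K : Ideal (MvPolynomial σ k)} {a b : σ →₀ ℕ} (ha : a ∈ E m K) (h : a ≤ b) :
    b ∈ E m K := by
  have := E_add m ha (b - a)
  rwa [add_tsub_cancel_of_le h] at this

lemma E_monomial {K : Ideal (MvPolynomial σ k)} {a : σ →₀ ℕ}
    (h : (monomial a 1 : MvPolynomial σ k) ∈ K) : a ∈ E m K := by
  classical
  refine ⟨_, h, by simp, ?_⟩
  rw [m.degree_monomial]; simp

lemma E_pow_sum {K : Ideal (MvPolynomial σ k)} (N : ℕ) (a : ℕ → (σ →₀ ℕ))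
    (h : ∀ u < N, a u ∈ E m K) : ∑ u ∈ Finset.range N, a u ∈ E m (K ^ N) := by
  induction N with
  | zero => simpa using E_top m (k := k) 0
  | succ N ih =>
    rw [Finset.sum_range_succ, pow_succ]
    exact E_mul m (ih fun u hu => h u (by omega)) (h N (by omega))

/-- The classes of the monomials outside `E m K` span. -/
lemma mem_span_compl (K : Ideal (MvPolynomial σ k)) (T : Set (σ →₀ ℕ))
    (hT : ∀ a, a ∉ T → a ∈ E m K) (a : σ →₀ ℕ) :
    Ideal.Quotient.mkₐ k K (monomial a 1) ∈
      Submodule.span k ((fun b => Ideal.Quotient.mkₐ k K (monomial b (1 : k))) '' T) := by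
  classical
  obtain ⟨s, rfl⟩ := m.toSyn.symm.surjective a
  induction s using WellFoundedLT.induction with
  | ind s ih =>
    by_cases hs : m.toSyn.symm s ∈ T
    · exact Submodule.subset_span ⟨_, hs, rfl⟩
    · obtain ⟨f, hfK, hf0, hfd⟩ := hT _ hs
      -- f = c x^s + lower terms
      set c := m.leadingCoeff f with hc
      have hc0 : c ≠ 0 := by rwa [hc, Ne, m.leadingCoeff_eq_zero_iff]
      have hfm : Ideal.Quotient.mkₐ k K f = 0 := by
        rw [Ideal.Quotient.mkₐ_eq_mk]; exact Ideal.Quotient.eq_zero_iff_mem.2 hfK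
      have hsum : f = ∑ b ∈ f.support, monomial b (f.coeff b) := (support_sum_monomial_coeff f).symm
      have hmem : m.toSyn.symm s ∈ f.support := by
        rw [← hfd]; exact m.degree_mem_support hf0
      rw [← Finset.add_sum_erase _ _ hmem] at hsum
      have hcc : f.coeff (m.toSyn.symm s) = c := by rw [← hfd]; rfl
      rw [hcc] at hsum
      have h1 : Ideal.Quotient.mkₐ k K (monomial (m.toSyn.symm s) c) =
          - ∑ b ∈ f.support.erase (m.toSyn.symm s),
            Ideal.Quotient.mkₐ k K (monomial b (f.coeff b)) := by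
        have := congrArg (Ideal.Quotient.mkₐ k K) hsum
        rw [hfm, map_add, map_sum] at this
        rw [eq_comm, neg_eq_iff_add_eq_zero, add_comm, ← this]
      have h2 : Ideal.Quotient.mkₐ k K (monomial (m.toSyn.symm s) 1) =
          c⁻¹ • Ideal.Quotient.mkₐ k K (monomial (m.toSyn.symm s) c) := by
        rw [← map_smul, smul_monomial, smul_eq_mul, inv_mul_cancel₀ hc0]
      rw [h2, h1]
      refine Submodule.smul_mem _ _ (Submodule.neg_mem _ (Submodule.sum_mem _ fun b hb => ?_))
      have hb' := Finset.mem_erase.1 hb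
      have hlt : m.toSyn b < s := by
        have hle := m.le_degree hb'.2
        rw [hfd] at hle
        have hle' : m.toSyn b ≤ s := by simpa using hle
        refine lt_of_le_of_ne hle' fun h => hb'.1 ?_
        rw [← h]; simp
      have h3 : Ideal.Quotient.mkₐ k K (monomial b (f.coeff b)) =
          (f.coeff b) • Ideal.Quotient.mkₐ k K (monomial b 1) := by
        rw [← map_smul, smul_monomial, smul_eq_mul, mul_one]
      rw [h3]
      refine Submodule.smul_mem _ _ ?_
      have := ih _ hlt
      simpa using this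

lemma span_compl_eq_top (K : Ideal (MvPolynomial σ k)) (T : Set (σ →₀ ℕ))
    (hT : ∀ a, a ∉ T → a ∈ E m K) :
    Submodule.span k ((fun b => Ideal.Quotient.mkₐ k K (monomial b (1 : k))) '' T) = ⊤ := by
  rw [eq_top_iff]
  rintro x -
  obtain ⟨f, rfl⟩ := Ideal.Quotient.mkₐ_surjective k K x
  rw [← support_sum_monomial_coeff f, map_sum]
  refine Submodule.sum_mem _ fun b _ => ?_
  have h3 : Ideal.Quotient.mkₐ k K (monomial b (f.coeff b)) =
      (f.coeff b) • Ideal.Quotient.mkₐ k K (monomial b 1) := by
    rw [← map_smul, smul_monomial, smul_eq_mul, mul_one]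
  rw [h3]
  exact Submodule.smul_mem _ _ (mem_span_compl m K T hT b)

lemma finite_quot (K : Ideal (MvPolynomial σ k)) (T : Finset (σ →₀ ℕ))
    (hT : ∀ a, a ∉ T → a ∈ E m K) : Module.Finite k (MvPolynomial σ k ⧸ K) := by
  classical
  have h := span_compl_eq_top m K (T : Set (σ →₀ ℕ)) (by simpa using hT)
  refine ⟨⟨T.image (fun b => Ideal.Quotient.mkₐ k K (monomial b (1 : k))), ?_⟩⟩
  rw [Finset.coe_image]
  exact h

lemma finrank_le_card (K : Ideal (MvPolynomial σ k)) (T : Finset (σ →₀ ℕ))
    (hT : ∀ a, a ∉ T → a ∈ E m K) : Module.finrank k (MvPolynomial σ k ⧸ K) ≤ T.card := by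
  classical
  have h := span_compl_eq_top m K (T : Set (σ →₀ ℕ)) (by simpa using hT)
  have h2 : Submodule.span k ((T.image (fun b => Ideal.Quotient.mkₐ k K (monomial b (1 : k))) :
      Finset _) : Set (MvPolynomial σ k ⧸ K)) = ⊤ := by
    rw [Finset.coe_image]; exact h
  have h3 := finrank_span_finset_le_card (R := k)
    (T.image (fun b => Ideal.Quotient.mkₐ k K (monomial b (1 : k))))
  rw [Set.finrank, h2, finrank_top] at h3
  exact h3.trans Finset.card_image_le

/-- The classes of the monomials outside `E m K` are linearly independent. -/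
lemma card_le_finrank (K : Ideal (MvPolynomial σ k)) [Module.Finite k (MvPolynomial σ k ⧸ K)]
    (T : Finset (σ →₀ ℕ)) (hT : ∀ a ∈ T, a ∉ E m K) :
    T.card ≤ Module.finrank k (MvPolynomial σ k ⧸ K) := by
  classical
  have hli : LinearIndependent k (fun b : T => Ideal.Quotient.mkₐ k K (monomial (b : σ →₀ ℕ) (1 : k))) := by
    rw [Fintype.linearIndependent_iff]
    intro g hg
    by_contra hne
    push Not at hne
    obtain ⟨i, hi⟩ := hne
    set f : MvPolynomial σ k := ∑ b : T, monomial (b : σ →₀ ℕ) (g b) with hf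
    have hfK : f ∈ K := by
      have : Ideal.Quotient.mkₐ k K f = 0 := by
        rw [hf, map_sum, ← hg]
        refine Finset.sum_congr rfl fun b _ => ?_
        rw [← map_smul, smul_monomial, smul_eq_mul, mul_one]
      rw [Ideal.Quotient.mkₐ_eq_mk] at this
      exact Ideal.Quotient.eq_zero_iff_mem.1 this
    have hcoeff : ∀ b : T, f.coeff (b : σ →₀ ℕ) = g b := by
      intro b
      rw [hf, coeff_sum]
      simp only [coeff_monomial]
      rw [Finset.sum_eq_single b]
      · simp
      · intro c _ hc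
        rw [if_neg]
        intro h; exact hc (Subtype.ext h)
      · simp
    have hf0 : f ≠ 0 := by
      intro h
      have := hcoeff i
      rw [h, coeff_zero] at this
      exact hi this.symm
    have hmem := m.degree_mem_support hf0
    have hsub : f.support ⊆ T := by
      intro a ha
      by_contra haT
      rw [mem_support_iff] at ha
      apply ha
      rw [hf, coeff_sum]
      refine Finset.sum_eq_zero fun c _ => ?_
      rw [coeff_monomial, if_neg]
      intro h; exact haT (h ▸ c.2)
    exact hT _ (hsub hmem) ⟨f, hfK, hf0, rfl⟩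
  have := hli.fintype_card_le_finrank
  simpa using this

/-- If the quotient is finite dimensional, the complement of `E m K` is finite. -/
lemma compl_finite (K : Ideal (MvPolynomial σ k)) [Module.Finite k (MvPolynomial σ k ⧸ K)] :
    (E m K)ᶜ.Finite := by
  by_contra h
  have h : (E m K)ᶜ.Infinite := h
  obtain ⟨T, hT, hc⟩ := h.exists_subset_card_eq (Module.finrank k (MvPolynomial σ k ⧸ K) + 1)
  have := card_le_finrank m K T (fun a ha => hT ha)
  omega

end Pool.Agent.W461.SL
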