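import Mathlib
import Pool.Agent.W461.SL.Std

set_option autoImplicit false

open MvPolynomial MonomialOrder

namespace Pool.Agent.W461.SL

lemma hermite (N : ℕ) (hN : 0 < N) (y : ℕ) : ∑ u ∈ Finset.range N, (y + u) / N = y := by
  induction y with
  | zero =>
    refine Finset.sum_eq_zero fun u hu => ?_
    rw [zero_add]
    exact Nat.div_eq_of_lt (Finset.mem_range.1 hu)
  | succ y ih =>
    have h1 : ∑ u ∈ Finset.range N, (y + 1 + u) / N + y / N =
        ∑ u ∈ Finset.range (N + 1), (y + u) / N := by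
      rw [Finset.sum_range_succ']
      simp only [add_zero]
      congr 1
      refine Finset.sum_congr rfl fun u _ => ?_
      congr 1; ring
    rw [Finset.sum_range_succ, ih, Nat.add_div_right _ hN] at h1
    omega

lemma split_sum (g : ℕ → ℕ) (N t : ℕ) (h : t < ∑ u ∈ Finset.range N, g u) :
    ∃ u < N, ∃ t' < g u, t = ∑ u' ∈ Finset.range u, g u' + t' := by
  induction N with
  | zero => simp at h
  | succ N ih =>
    rw [Finset.sum_range_succ] at h
    by_cases h1 : t < ∑ u ∈ Finset.range N, g u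
    · obtain ⟨u, hu, t', ht', e⟩ := ih h1
      exact ⟨u, by omega, t', ht', e⟩
    · exact ⟨N, by omega, t - ∑ u ∈ Finset.range N, g u, by omega, by omega⟩

variable {k : Type*} [Field k] {d : ℕ} (m : MonomialOrder (Fin (d + 1)))

/-- Height of the staircase over an exponent of the last `d` variables. -/
noncomputable def phi (I : Ideal (MvPolynomial (Fin (d + 1)) k)) (b : Fin d →₀ ℕ) : ℕ :=
  sInf {t | Finsupp.cons t b ∈ E m I}

section
variable (I : Ideal (MvPolynomial (Fin (d + 1)) k))
  [Module.Finite k (MvPolynomial (Fin (d + 1)) k ⧸ I)]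

lemma phi_set_nonempty (b : Fin d →₀ ℕ) : {t | Finsupp.cons t b ∈ E m I}.Nonempty := by
  by_contra h
  rw [Set.not_nonempty_iff_eq_empty] at h
  have hinj : Function.Injective (fun t : ℕ => (Finsupp.cons t b : Fin (d + 1) →₀ ℕ)) := by
    intro s t hst
    have := congrArg (fun f : Fin (d + 1) →₀ ℕ => f 0) hst
    simpa using this
  have hinf : (Set.range (fun t : ℕ => (Finsupp.cons t b : Fin (d + 1) →₀ ℕ))).Infinite :=
    Set.infinite_range_of_injective hinj
  refine hinf ((compl_finite m I).subset ?_)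
  rintro _ ⟨t, rfl⟩ ht
  have : t ∈ {t | Finsupp.cons t b ∈ E m I} := ht
  rw [h] at this
  exact this

lemma phi_mem (b : Fin d →₀ ℕ) : Finsupp.cons (phi m I b) b ∈ E m I :=
  Nat.sInf_mem (phi_set_nonempty m I b)

lemma lt_phi {t : ℕ} {b : Fin d →₀ ℕ} (h : t < phi m I b) : Finsupp.cons t b ∉ E m I :=
  Nat.notMem_of_lt_sInf h

lemma phi_finite : {b | phi m I b ≠ 0}.Finite := by
  have h := (compl_finite m I).image (fun a => Finsupp.tail a)
  refine h.subset ?_
  intro b hb
  refine ⟨Finsupp.cons 0 b, ?_, ?_⟩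
  · exact lt_phi m I (Nat.pos_of_ne_zero hb)
  · simp

/-- The support of `phi`. -/
noncomputable def BB : Finset (Fin d →₀ ℕ) := (phi_finite m I).toFinset

lemma mem_BB {b : Fin d →₀ ℕ} : b ∈ BB m I ↔ phi m I b ≠ 0 := by
  simp [BB]

lemma sum_phi_le : ∑ b ∈ BB m I, phi m I b ≤ Module.finrank k (MvPolynomial (Fin (d + 1)) k ⧸ I) := by
  classical
  set T : Finset (Fin (d + 1) →₀ ℕ) := ((BB m I).sigma (fun b => Finset.range (phi m I b))).image
    (fun p => Finsupp.cons p.2 p.1) with hT
  have hcard : T.card = ∑ b ∈ BB m I, phi m I b := by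
    rw [hT, Finset.card_image_of_injective, Finset.card_sigma]
    · simp
    · rintro ⟨b, t⟩ ⟨b', t'⟩ h
      have h1 := congrArg (fun f : Fin (d + 1) →₀ ℕ => f 0) h
      have h2 := congrArg Finsupp.tail h
      simp only [Finsupp.cons_zero] at h1
      simp only [Finsupp.tail_cons] at h2
      subst h1 h2
      rfl
  rw [← hcard]
  refine card_le_finrank m I T ?_
  intro a ha
  rw [hT, Finset.mem_image] at ha
  obtain ⟨⟨b, t⟩, hp, rfl⟩ := ha
  rw [Finset.mem_sigma] at hp
  exact lt_phi m I (Finset.mem_range.1 hp.2)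

end

/-- partial sums of an exponent along a permutation -/
def ys (σ : Equiv.Perm (Fin d)) (v : Fin d →₀ ℕ) (i : ℕ) : ℕ :=
  ∑ j : Fin d, if j.val < i then v (σ j) else 0

lemma ys_zero (σ : Equiv.Perm (Fin d)) (v : Fin d →₀ ℕ) : ys σ v 0 = 0 := by
  simp [ys]

lemma ys_succ (σ : Equiv.Perm (Fin d)) (v : Fin d →₀ ℕ) (j : Fin d) :
    ys σ v (j.val + 1) = ys σ v j.val + v (σ j) := by
  unfold ys
  have h : ∀ i : Fin d, (if i.val < j.val + 1 then v (σ i) else 0) =
      (if i.val < j.val then v (σ i) else 0) + (if i = j then v (σ i) else 0) := by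
    intro i
    rcases lt_trichotomy i.val j.val with h1 | h1 | h1
    · have : i ≠ j := fun h => by rw [h] at h1; omega
      simp [h1, this, Nat.lt_succ_of_lt h1]
    · have : i = j := Fin.ext h1
      subst this; simp
    · have : i ≠ j := fun h => by rw [h] at h1; omega
      have h2 : ¬ i.val < j.val + 1 := by omega
      have h3 : ¬ i.val < j.val := by omega
      simp [h2, h3, this]
  simp only [h, Finset.sum_add_distrib]
  simp

/-- The `u`-th part of the balanced decomposition of `v` into `N` parts. -/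
noncomputable def part (σ : Equiv.Perm (Fin d)) (N : ℕ) (v : Fin d →₀ ℕ) (u : ℕ) : Fin d →₀ ℕ :=
  Finsupp.equivFunOnFinite.symm (fun s =>
    (ys σ v ((σ.symm s).val + 1) + u) / N - (ys σ v (σ.symm s).val + u) / N)

lemma part_apply (σ : Equiv.Perm (Fin d)) (N : ℕ) (v : Fin d →₀ ℕ) (u : ℕ) (j : Fin d) :
    part σ N v u (σ j) = (ys σ v (j.val + 1) + u) / N - (ys σ v j.val + u) / N := by
  simp [part]

lemma sum_part (σ : Equiv.Perm (Fin d)) (N : ℕ) (hN : 0 < N) (v : Fin d →₀ ℕ) :
    ∑ u ∈ Finset.range N, part σ N v u = v := by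
  ext s
  obtain ⟨j, rfl⟩ := σ.surjective s
  rw [Finsupp.finset_sum_apply]
  simp only [part_apply]
  rw [Finset.sum_tsub_distrib, hermite N hN, hermite N hN, ys_succ]
  · omega
  · intro u _
    apply Nat.div_le_div_right
    rw [ys_succ]; omega

lemma sum_cons (N : ℕ) (t : ℕ → ℕ) (b : ℕ → (Fin d →₀ ℕ)) :
    ∑ u ∈ Finset.range N, (Finsupp.cons (t u) (b u) : Fin (d + 1) →₀ ℕ) =
      Finsupp.cons (∑ u ∈ Finset.range N, t u) (∑ u ∈ Finset.range N, b u) := by
  ext i
  refine Fin.cases ?_ (fun i => ?_) i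
  · simp [Finsupp.finset_sum_apply]
  · simp [Finsupp.finset_sum_apply]

/-- The words compatible with an exponent. -/
def WW (σ : Equiv.Perm (Fin d)) (q : ℕ) (hq : q ≤ d) (N : ℕ) (b : Fin d →₀ ℕ) :
    Finset (Fin (q + 1) → Fin N) :=
  {w | (∀ j : Fin d, q ≤ j.val → b (σ j) = 0) ∧
    ∀ j : Fin q, b (σ (Fin.castLE hq j)) = 0 → w j.castSucc ≤ w j.succ}

lemma count_bound (I : Ideal (MvPolynomial (Fin (d + 1)) k))
    [Module.Finite k (MvPolynomial (Fin (d + 1)) k ⧸ I)] (σ : Equiv.Perm (Fin d)) (q : ℕ)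
    (hq : q ≤ d) (N : ℕ) (hN : 0 < N) (K : Ideal (MvPolynomial (Fin (d + 1)) k))
    (hK : I ^ N ≤ K) (hX : ∀ j : Fin d, q ≤ j.val → X (σ j).succ ∈ K) :
    Module.finrank k (MvPolynomial (Fin (d + 1)) k ⧸ K) ≤
      ∑ b ∈ BB m I, phi m I b * (WW σ q hq N b).card := by
  classical
  set Ψ : (Σ _ : Fin d →₀ ℕ, ℕ × (Fin (q + 1) → Fin N)) → (Fin (d + 1) →₀ ℕ) := fun p =>
    let v : Fin d →₀ ℕ := Finsupp.equivFunOnFinite.symm (fun s =>
      if h : (σ.symm s).val < q then
        N * p.1 s + (p.2.2 ⟨(σ.symm s).val + 1, by omega⟩).val -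
          (p.2.2 ⟨(σ.symm s).val, by omega⟩).val
      else 0)
    Finsupp.cons (∑ u' ∈ Finset.range (p.2.2 0).val, phi m I (part σ N v u') + p.2.1) v with hΨ
  set T : Finset (Fin (d + 1) →₀ ℕ) :=
    ((BB m I).sigma (fun b => Finset.range (phi m I b) ×ˢ WW σ q hq N b)).image Ψ with hT
  have hcard : T.card ≤ ∑ b ∈ BB m I, phi m I b * (WW σ q hq N b).card := by
    refine Finset.card_image_le.trans ?_
    rw [Finset.card_sigma]
    simp
  refine (finrank_le_card m K T ?_).trans hcard
  intro a haT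
  by_contra haK
  apply haT
  set v := Finsupp.tail a with hv
  have ha : a = Finsupp.cons (a 0) v := (Finsupp.cons_tail a).symm
  have hv0 : ∀ j : Fin d, q ≤ j.val → v (σ j) = 0 := by
    intro j hj
    by_contra hne
    apply haK
    have h1 : Finsupp.single (σ j).succ 1 ∈ E m K := E_monomial m (hX j hj)
    refine E_of_le m h1 ?_
    rw [Finsupp.single_le_iff]
    have : v (σ j) = a (σ j).succ := rfl
    omega
  have hlt : a 0 < ∑ u ∈ Finset.range N, phi m I (part σ N v u) := by
    by_contra hge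
    push Not at hge
    apply haK
    apply E_mono m hK
    have h1 := E_pow_sum m N (fun u => Finsupp.cons (phi m I (part σ N v u)) (part σ N v u))
      (fun u _ => phi_mem m I _)
    rw [sum_cons, sum_part σ N hN] at h1
    refine E_of_le m h1 ?_
    rw [ha]
    intro i
    refine Fin.cases ?_ (fun i => ?_) i
    · simpa using hge
    · simp
  obtain ⟨u, hu, t', ht', hte⟩ := split_sum _ N (a 0) hlt
  set b := part σ N v u with hb
  set w : Fin (q + 1) → Fin N := fun i => ⟨(ys σ v i.val + u) % N, Nat.mod_lt _ hN⟩ with hw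
  have hys : ∀ j : Fin d, ys σ v j.val ≤ ys σ v (j.val + 1) := by
    intro j; rw [ys_succ]; omega
  rw [hT, Finset.mem_image]
  refine ⟨⟨b, (t', w)⟩, ?_, ?_⟩
  · rw [Finset.mem_sigma]
    refine ⟨?_, ?_⟩
    · rw [mem_BB]; dsimp only; omega
    · rw [Finset.mem_product]
      refine ⟨Finset.mem_range.2 ht', ?_⟩
      simp only [WW, Finset.mem_filter, Finset.mem_univ, true_and]
      refine ⟨?_, ?_⟩
      · intro j hj
        rw [hb, part_apply, ys_succ, hv0 j hj]
        simp
      · intro j hj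
        rw [hb, part_apply] at hj
        have hle := hys (Fin.castLE hq j)
        rw [Fin.le_def]
        simp only [hw, Fin.val_castSucc, Fin.val_succ]
        simp only [Fin.val_castLE] at hj hle
        have e1 := Nat.div_add_mod (ys σ v (j.val + 1) + u) N
        have e2 := Nat.div_add_mod (ys σ v j.val + u) N
        have h3 : (ys σ v j.val + u) / N ≤ (ys σ v (j.val + 1) + u) / N :=
          Nat.div_le_div_right (by omega)
        have h4 : (ys σ v j.val + u) / N = (ys σ v (j.val + 1) + u) / N := by omega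
        rw [h4] at e2
        omega
  · have hvv : (Finsupp.equivFunOnFinite.symm (fun s =>
      if h : (σ.symm s).val < q then
        N * b s + (w ⟨(σ.symm s).val + 1, by omega⟩).val -
          (w ⟨(σ.symm s).val, by omega⟩).val
      else 0) : Fin d →₀ ℕ) = v := by
      ext s
      obtain ⟨j, rfl⟩ := σ.surjective s
      simp only [Finsupp.equivFunOnFinite_symm_apply_apply, Equiv.symm_apply_apply]
      by_cases hj : j.val < q
      · rw [dif_pos hj, hb, part_apply]
        simp only [hw]
        have e1 := Nat.div_add_mod (ys σ v (j.val + 1) + u) N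
        have e2 := Nat.div_add_mod (ys σ v j.val + u) N
        have h5 := ys_succ σ v j
        have h3 : (ys σ v j.val + u) / N ≤ (ys σ v (j.val + 1) + u) / N :=
          Nat.div_le_div_right (by omega)
        have h6 := Nat.mul_le_mul_left N h3
        rw [Nat.mul_sub]
        omega
      · rw [dif_neg hj, hv0 j (by omega)]
    have hw0 : (w 0).val = u := by
      simp only [hw, Fin.val_zero, ys_zero, zero_add]
      exact Nat.mod_eq_of_lt hu
    rw [ha]
    simp only [hΨ]
    rw [hvv, hw0]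
    congr 1
    exact hte.symm

end Pool.Agent.W461.SL
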