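import Mathlib
import Pool.Agent.W461.SL.Count

set_option autoImplicit false

namespace Pool.Agent.W461.SL

open Finset

variable {d : ℕ}

/-- number of compatible words, as a function of the set of positions -/
def H (q : ℕ) (hq : q ≤ d) (N : ℕ) (U : Finset (Fin d)) : ℕ :=
  ({w : Fin (q + 1) → Fin N | (∀ j : Fin d, q ≤ j.val → j ∉ U) ∧
    ∀ j : Fin q, Fin.castLE hq j ∉ U → w j.castSucc ≤ w j.succ} : Finset _).card

lemma card_WW (σ : Equiv.Perm (Fin d)) (q : ℕ) (hq : q ≤ d) (N : ℕ) (b : Fin d →₀ ℕ) :
    (WW σ q hq N b).card = H q hq N (b.support.map σ.symm.toEmbedding) := by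
  unfold WW H
  congr 1
  ext w
  simp only [Finset.mem_filter, Finset.mem_univ, true_and]
  have h : ∀ j : Fin d, j ∉ b.support.map σ.symm.toEmbedding ↔ b (σ j) = 0 := by
    intro j
    rw [Finset.mem_map_equiv]
    simp
  simp only [h]

lemma exists_perm (T T' : Finset (Fin d)) (h : T.card = T'.card) :
    ∃ ρ : Equiv.Perm (Fin d), T.map ρ.toEmbedding = T' := by
  classical
  let e : {x // x ∈ T} ≃ {x // x ∈ T'} := Finset.equivOfCardEq h
  refine ⟨e.extendSubtype, ?_⟩
  ext x
  rw [Finset.mem_map]
  constructor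
  · rintro ⟨a, ha, rfl⟩
    exact e.extendSubtype_mem a ha
  · intro hx
    refine ⟨(e.symm ⟨x, hx⟩ : Fin d), (e.symm ⟨x, hx⟩).2, ?_⟩
    change e.extendSubtype _ = x
    rw [e.extendSubtype_apply_of_mem _ (e.symm ⟨x, hx⟩).2]
    simp

lemma sum_perm_eq (f : Finset (Fin d) → ℕ) (T T' : Finset (Fin d)) (h : T.card = T'.card) :
    ∑ σ : Equiv.Perm (Fin d), f (T'.map σ.toEmbedding) =
      ∑ σ : Equiv.Perm (Fin d), f (T.map σ.toEmbedding) := by
  obtain ⟨ρ, rfl⟩ := exists_perm T T' h
  rw [← Equiv.sum_comp (Equiv.mulRight ρ) (fun σ : Equiv.Perm (Fin d) => f (T.map σ.toEmbedding))]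
  refine Finset.sum_congr rfl fun σ _ => ?_
  rw [Finset.map_map]
  rfl

lemma sum_perm (f : Finset (Fin d) → ℕ) (T : Finset (Fin d)) :
    (d.choose T.card) * ∑ σ : Equiv.Perm (Fin d), f (T.map σ.toEmbedding) =
      d.factorial * ∑ U ∈ powersetCard T.card (univ : Finset (Fin d)), f U := by
  classical
  have h1 : ∑ T' ∈ powersetCard T.card (univ : Finset (Fin d)),
      ∑ σ : Equiv.Perm (Fin d), f (T'.map σ.toEmbedding) =
      (d.choose T.card) * ∑ σ : Equiv.Perm (Fin d), f (T.map σ.toEmbedding) := by
    rw [Finset.sum_congr rfl (fun T' hT' => sum_perm_eq f T T' (Finset.mem_powersetCard.1 hT').2.symm)]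
    rw [Finset.sum_const, Finset.card_powersetCard, Finset.card_univ, Fintype.card_fin, smul_eq_mul]
  rw [← h1, Finset.sum_comm]
  have h2 : ∀ σ : Equiv.Perm (Fin d), ∑ T' ∈ powersetCard T.card (univ : Finset (Fin d)),
      f (T'.map σ.toEmbedding) = ∑ U ∈ powersetCard T.card (univ : Finset (Fin d)), f U := by
    intro σ
    refine Finset.sum_equiv σ.finsetCongr ?_ ?_
    · intro U
      simp [Finset.mem_powersetCard]
    · intro U _
      rfl
  rw [Finset.sum_congr rfl (fun σ _ => h2 σ), Finset.sum_const, Finset.card_univ,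
    Fintype.card_perm, Fintype.card_fin, smul_eq_mul]

/-- words with given first letter -/
def cnt (N : ℕ) (q : ℕ) (V : Fin q → Bool) (x : Fin N) : ℕ :=
  ({w : Fin (q + 1) → Fin N | w 0 = x ∧
    ∀ j : Fin q, V j = false → w j.castSucc ≤ w j.succ} : Finset _).card

lemma cnt_zero (N : ℕ) (V : Fin 0 → Bool) (x : Fin N) : cnt N 0 V x = 1 := by
  unfold cnt
  rw [Finset.card_eq_one]
  refine ⟨fun _ => x, ?_⟩
  ext w
  simp only [Finset.mem_filter, Finset.mem_univ, true_and, Finset.mem_singleton]
  constructor
  · rintro ⟨h, -⟩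
    funext i
    have hi : i = 0 := Fin.ext (by omega)
    rw [hi, h]
  · rintro rfl
    exact ⟨rfl, fun j => j.elim0⟩

lemma cnt_succ (N : ℕ) (q : ℕ) (v : Bool) (V : Fin q → Bool) (x : Fin N) :
    cnt N (q + 1) (Fin.cons v V) x = ∑ x' : Fin N, if v = true ∨ x ≤ x' then cnt N q V x' else 0 := by
  classical
  have h1 : ∀ x' : Fin N, (if v = true ∨ x ≤ x' then cnt N q V x' else 0) =
      ({w : Fin (q + 1) → Fin N | (v = true ∨ x ≤ x') ∧ w 0 = x' ∧
        ∀ j : Fin q, V j = false → w j.castSucc ≤ w j.succ} : Finset _).card := by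
    intro x'
    by_cases h : v = true ∨ x ≤ x'
    · simp [h, cnt]
    · simp [h]
  simp only [h1]
  rw [← Finset.card_sigma]
  unfold cnt
  refine Finset.card_bij' (fun w _ => (⟨w 1, fun i => w i.succ⟩ : Σ _ : Fin N, Fin (q + 1) → Fin N))
    (fun p _ => (Fin.cons x p.2 : Fin (q + 2) → Fin N)) ?_ ?_ ?_ ?_
  · intro w hw
    simp only [Finset.mem_filter, Finset.mem_univ, true_and] at hw
    simp only [Finset.mem_sigma, Finset.mem_filter, Finset.mem_univ, true_and]
    refine ⟨?_, rfl, ?_⟩
    · have := hw.2 0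
      simp only [Fin.cons_zero, Fin.castSucc_zero, hw.1] at this
      rcases Bool.eq_false_or_eq_true v with hv | hv
      · exact Or.inl hv
      · exact Or.inr (this hv)
    · intro j hj
      have := hw.2 j.succ
      simp only [Fin.cons_succ] at this
      exact this hj
  · rintro ⟨x', w⟩ hw
    simp only [Finset.mem_sigma, Finset.mem_filter, Finset.mem_univ, true_and] at hw
    simp only [Finset.mem_filter, Finset.mem_univ, true_and, Fin.cons_zero]
    intro j
    refine Fin.cases ?_ (fun j => ?_) j
    · intro hv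
      simp only [Fin.cons_zero] at hv
      simp only [Fin.castSucc_zero, Fin.cons_zero, Fin.cons_succ]
      rw [hw.2.1]
      rcases hw.1 with h | h
      · rw [hv] at h; exact absurd h (by simp)
      · exact h
    · intro hv
      simp only [Fin.cons_succ] at hv ⊢
      exact hw.2.2 j hv
  · intro w hw
    simp only [Finset.mem_filter, Finset.mem_univ, true_and] at hw
    funext i
    refine Fin.cases ?_ (fun i => ?_) i
    · simp [hw.1]
    · simp
  · rintro ⟨x', w⟩ hw
    simp only [Finset.mem_sigma, Finset.mem_filter, Finset.mem_univ, true_and] at hw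
    obtain ⟨-, h2, -⟩ := hw
    subst h2
    rfl

/-- number of `true` values -/
def nt {q : ℕ} (V : Fin q → Bool) : ℕ := ∑ j, (V j).toNat

lemma nt_cons {q : ℕ} (v : Bool) (V : Fin q → Bool) : nt (Fin.cons v V : Fin (q + 1) → Bool) = v.toNat + nt V := by
  simp [nt, Fin.sum_univ_succ]

lemma sum_choose_lt (M k : ℕ) : ∑ t ∈ range M, t.choose k = M.choose (k + 1) := by
  induction M with
  | zero => simp
  | succ M ih => rw [Finset.sum_range_succ, ih, Nat.choose_succ_succ, add_comm]

lemma sum_choose_shift (M q : ℕ) : ∑ t ∈ range M, (t + q).choose q = (M + q).choose (q + 1) := by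
  induction M with
  | zero => simp
  | succ M ih =>
    rw [Finset.sum_range_succ, ih]
    have : M + 1 + q = (M + q) + 1 := by ring
    rw [this, Nat.choose_succ_succ, add_comm]

/-- main identity, refined by the first letter -/
lemma cnt_identity (N q : ℕ) (M : ℕ) (x : Fin N) :
    ∑ V : Fin q → Bool, M.choose (nt V + 1) * cnt N q V x =
      ∑ t ∈ range M, (N * t + (N - 1 - x.val) + q).choose q := by
  classical
  induction q generalizing M x with
  | zero =>
    simp [cnt_zero, nt]
  | succ q ih =>
    have hN : 0 < N := x.pos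
    -- split the sum
    have hc : ∀ (v : Bool) (V : Fin q → Bool),
        (Fin.consEquiv (fun _ : Fin (q + 1) => Bool)) (v, V) = Fin.cons v V := fun _ _ => rfl
    rw [← (Fin.consEquiv (fun _ : Fin (q + 1) => Bool)).sum_comp, Fintype.sum_prod_type]
    rw [Fintype.sum_bool]
    simp only [hc, nt_cons, cnt_succ]
    have hA : ∑ V : Fin q → Bool, M.choose ((true).toNat + nt V + 1) *
        ∑ x' : Fin N, (if (true = true ∨ x ≤ x') then cnt N q V x' else 0) =
        ∑ M' ∈ range M, ∑ x' : Fin N, ∑ t ∈ range M', (N * t + (N - 1 - x'.val) + q).choose q := by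
      simp only [true_or, if_true]
      have h1 : ∀ V : Fin q → Bool, M.choose ((true).toNat + nt V + 1) =
          ∑ M' ∈ range M, M'.choose (nt V + 1) := by
        intro V
        rw [sum_choose_lt]
        congr 1
        simp; ring
      simp only [h1, Finset.sum_mul_sum]
      rw [Finset.sum_comm]
      refine Finset.sum_congr rfl fun M' _ => ?_
      rw [Finset.sum_comm]
      exact Finset.sum_congr rfl fun x' _ => ih M' x'
    have hB : ∑ V : Fin q → Bool, M.choose ((false).toNat + nt V + 1) *
        ∑ x' : Fin N, (if (false = true ∨ x ≤ x') then cnt N q V x' else 0) =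
        ∑ x' : Fin N, if x ≤ x' then ∑ t ∈ range M, (N * t + (N - 1 - x'.val) + q).choose q else 0 := by
      simp only [Bool.false_eq_true, false_or, Bool.toNat_false, zero_add, Finset.mul_sum]
      rw [Finset.sum_comm]
      refine Finset.sum_congr rfl fun x' _ => ?_
      by_cases h : x ≤ x'
      · simp only [h, if_true]; exact ih M x'
      · simp [h]
    have hA' : ∑ V : Fin q → Bool, M.choose ((true).toNat + nt V + 1) *
        ∑ x' : Fin N, (if (True ∨ x ≤ x') then cnt N q V x' else 0) =
        ∑ M' ∈ range M, ∑ x' : Fin N, ∑ t ∈ range M', (N * t + (N - 1 - x'.val) + q).choose q := by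
      rw [← hA]
      simp
    rw [hA', hB]
    -- evaluate
    have hrev : ∀ (f : ℕ → ℕ) , ∑ x' : Fin N, f (N - 1 - x'.val) = ∑ y ∈ range N, f y := by
      intro f
      rw [Finset.sum_range (fun y => f y), ← Equiv.sum_comp Fin.revPerm]
      refine Finset.sum_congr rfl fun x' _ => ?_
      congr 1
      simp [Fin.val_rev]
      omega
    have hblock : ∀ M' : ℕ, ∑ t ∈ range M', ∑ y ∈ range N, (N * t + y + q).choose q =
        (N * M' + q).choose (q + 1) := by
      intro M'
      rw [← sum_choose_shift]
      induction M' with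
      | zero => simp
      | succ M' ihM =>
        rw [Finset.sum_range_succ, ihM, Nat.mul_succ, Finset.sum_range_add]
    have hA2 : ∀ M' : ℕ, ∑ x' : Fin N, ∑ t ∈ range M', (N * t + (N - 1 - x'.val) + q).choose q =
        (N * M' + q).choose (q + 1) := by
      intro M'
      rw [Finset.sum_comm, ← hblock]
      refine Finset.sum_congr rfl fun t _ => ?_
      exact hrev (fun y => (N * t + y + q).choose q)
    have hB2 : (∑ x' : Fin N, if x ≤ x' then
        ∑ t ∈ range M, (N * t + (N - 1 - x'.val) + q).choose q else 0) =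
        ∑ t ∈ range M, ∑ y ∈ range (N - x.val), (N * t + y + q).choose q := by
      have h1 : (∑ x' : Fin N, if x ≤ x' then
        ∑ t ∈ range M, (N * t + (N - 1 - x'.val) + q).choose q else 0) =
        ∑ x' : Fin N, (fun y => if y < N - x.val then
          ∑ t ∈ range M, (N * t + y + q).choose q else 0) (N - 1 - x'.val) := by
        refine Finset.sum_congr rfl fun x' _ => ?_
        have : x ≤ x' ↔ N - 1 - x'.val < N - x.val := by
          rw [Fin.le_def]
          have := x'.2; have := x.2
          omega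
        simp only [this]
      rw [h1]
      refine (hrev (fun y => if y < N - x.val then
          ∑ t ∈ range M, (N * t + y + q).choose q else 0)).trans ?_
      rw [← Finset.sum_filter]
      have h2 : (range N).filter (fun y => y < N - x.val) = range (N - x.val) := by
        ext y; simp only [Finset.mem_filter, Finset.mem_range]; omega
      rw [h2, Finset.sum_comm]
    simp only [hA2]
    rw [hB2]
    -- now: ∑_{M'<M} C(NM'+q,q+1) + ∑_{t<M} ∑_{y<N-x} C(Nt+y+q,q) = ∑_{t<M} C(Nt+(N-1-x)+q+1,q+1)
    rw [← Finset.sum_add_distrib]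
    refine Finset.sum_congr rfl fun t _ => ?_
    have h3 := sum_choose_shift (N * t + (N - x.val)) q
    rw [Finset.sum_range_add, sum_choose_shift] at h3
    rw [h3]
    congr 1
    have := x.2
    omega

end Pool.Agent.W461.SL
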