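import Mathlib
import Pool.Agent.W461.SL.Comb

set_option autoImplicit false

namespace Pool.Agent.W461.SL

open Finset Filter Topology

variable {d : ℕ}

lemma cnt_total (N q : ℕ) (hN : 0 < N) (M : ℕ) :
    ∑ V : Fin q → Bool, M.choose (nt V + 1) * ∑ x : Fin N, cnt N q V x =
      (N * M + q).choose (q + 1) := by
  simp only [Finset.mul_sum]
  rw [Finset.sum_comm]
  simp only [cnt_identity]
  rw [Finset.sum_comm]
  have h : ∀ t, ∑ x : Fin N, (N * t + (N - 1 - x.val) + q).choose q =
      ∑ y ∈ range N, (N * t + y + q).choose q := by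
    intro t
    rw [Finset.sum_range (fun y => (N * t + y + q).choose q), ← Equiv.sum_comp Fin.revPerm]
    refine Finset.sum_congr rfl fun x' _ => ?_
    congr 2
    simp [Fin.val_rev]
    omega
  simp only [h]
  rw [← sum_choose_shift]
  induction M with
  | zero => simp
  | succ M ihM => rw [Finset.sum_range_succ, ihM, Nat.mul_succ, Finset.sum_range_add]

/-- the finset of positions of a Boolean word -/
def UV {q : ℕ} (hq : q ≤ d) (V : Fin q → Bool) : Finset (Fin d) :=
  (univ.filter (fun j => V j = true)).map (Fin.castLEEmb hq)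

lemma mem_UV {q : ℕ} (hq : q ≤ d) (V : Fin q → Bool) (j : Fin q) :
    Fin.castLE hq j ∈ UV hq V ↔ V j = true := by
  unfold UV
  rw [Finset.mem_map]
  constructor
  · rintro ⟨a, ha, hj⟩
    have : a = j := (Fin.castLEEmb hq).injective hj
    subst this
    exact (Finset.mem_filter.1 ha).2
  · intro h
    exact ⟨j, Finset.mem_filter.2 ⟨Finset.mem_univ _, h⟩, rfl⟩

lemma card_UV {q : ℕ} (hq : q ≤ d) (V : Fin q → Bool) : (UV hq V).card = nt V := by
  unfold UV nt
  rw [Finset.card_map, Finset.card_filter]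
  refine Finset.sum_congr rfl fun j _ => ?_
  cases V j <;> simp

lemma UV_lt {q : ℕ} (hq : q ≤ d) (V : Fin q → Bool) (j : Fin d) (hj : q ≤ j.val) : j ∉ UV hq V := by
  unfold UV
  rw [Finset.mem_map]
  rintro ⟨a, -, rfl⟩
  have : (Fin.castLEEmb hq a : Fin d).val = a.val := rfl
  have := a.2
  omega

lemma UV_injective {q : ℕ} (hq : q ≤ d) : Function.Injective (UV hq) := by
  intro V V' h
  funext j
  have h1 := mem_UV hq V j
  have h2 := mem_UV hq V' j
  rw [h] at h1
  rw [Bool.eq_iff_iff]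
  exact h1.symm.trans h2

lemma H_UV {q : ℕ} (hq : q ≤ d) (N : ℕ) (V : Fin q → Bool) :
    H q hq N (UV hq V) = ∑ x : Fin N, cnt N q V x := by
  classical
  unfold H cnt
  rw [← Finset.card_sigma]
  refine Finset.card_bij' (fun w _ => (⟨w 0, w⟩ : Σ _ : Fin N, Fin (q + 1) → Fin N))
    (fun p _ => p.2) ?_ ?_ ?_ ?_
  · intro w hw
    simp only [Finset.mem_filter, Finset.mem_univ, true_and] at hw
    simp only [Finset.mem_sigma, Finset.mem_filter, Finset.mem_univ, true_and]
    intro j hj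
    refine hw.2 j ?_
    rw [mem_UV, hj]; simp
  · rintro ⟨x, w⟩ hw
    simp only [Finset.mem_sigma, Finset.mem_filter, Finset.mem_univ, true_and] at hw
    simp only [Finset.mem_filter, Finset.mem_univ, true_and]
    refine ⟨fun j hj => UV_lt hq V j hj, fun j hj => hw.2 j ?_⟩
    rw [mem_UV] at hj
    simpa using hj
  · intro w _; rfl
  · rintro ⟨x, w⟩ hw
    simp only [Finset.mem_sigma, Finset.mem_filter, Finset.mem_univ, true_and] at hw
    obtain ⟨h, -⟩ := hw
    subst h; rfl

lemma H_eq_zero {q : ℕ} (hq : q ≤ d) (N : ℕ) (U : Finset (Fin d)) (hU : U ∉ Set.range (UV hq)) :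
    H q hq N U = 0 := by
  classical
  unfold H
  rw [Finset.card_eq_zero, Finset.filter_eq_empty_iff]
  rintro w - ⟨h, -⟩
  apply hU
  refine ⟨fun j => decide (Fin.castLE hq j ∈ U), ?_⟩
  ext i
  constructor
  · intro hi
    unfold UV at hi
    rw [Finset.mem_map] at hi
    obtain ⟨a, ha, rfl⟩ := hi
    simpa using ha
  · intro hi
    have hlt : i.val < q := by
      by_contra hge
      exact h i (by omega) hi
    have : i = Fin.castLE hq ⟨i.val, hlt⟩ := rfl
    rw [this, mem_UV]
    simpa using hi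

lemma H_total (q : ℕ) (hq : q ≤ d) (N : ℕ) (hN : 0 < N) (M : ℕ) :
    ∑ U : Finset (Fin d), M.choose (U.card + 1) * H q hq N U = (N * M + q).choose (q + 1) := by
  rw [← cnt_total N q hN M]
  symm
  refine Fintype.sum_of_injective (UV hq) (UV_injective hq) _ _ ?_ ?_
  · intro U hU
    rw [H_eq_zero hq N U hU, mul_zero]
  · intro V
    rw [card_UV, H_UV]

/-- sum over the position sets of size `s` -/
def G (q : ℕ) (hq : q ≤ d) (s N : ℕ) : ℕ :=
  ∑ U ∈ powersetCard s (univ : Finset (Fin d)), H q hq N U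

lemma G_total (q : ℕ) (hq : q ≤ d) (N : ℕ) (hN : 0 < N) (M : ℕ) :
    ∑ s ∈ range (d + 1), M.choose (s + 1) * G q hq s N = (N * M + q).choose (q + 1) := by
  rw [← H_total q hq N hN M, ← Finset.powerset_univ, Finset.sum_powerset]
  rw [Finset.card_univ, Fintype.card_fin]
  refine Finset.sum_congr rfl fun s _ => ?_
  unfold G
  rw [Finset.mul_sum]
  refine Finset.sum_congr rfl fun U hU => ?_
  rw [(Finset.mem_powersetCard.1 hU).2]

lemma lim_choose (q M : ℕ) :
    Tendsto (fun N : ℕ => ((q + 1).factorial : ℝ) * ((N * M + q).choose (q + 1) : ℕ) / (N : ℝ) ^ (q + 1))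
      atTop (𝓝 ((M : ℝ) ^ (q + 1))) := by
  have h1 : ∀ N : ℕ, 0 < N → ((q + 1).factorial : ℝ) * ((N * M + q).choose (q + 1) : ℕ) / (N : ℝ) ^ (q + 1)
      = ∏ i ∈ range (q + 1), ((M : ℝ) + (i : ℝ) / (N : ℝ)) := by
    intro N hN
    have hN' : (N : ℝ) ≠ 0 := by positivity
    have h2 : (q + 1).factorial * (N * M + q).choose (q + 1) = ∏ i ∈ range (q + 1), (N * M + i) := by
      rw [← Nat.ascFactorial_eq_prod_range, Nat.ascFactorial_eq_factorial_mul_choose']
      rfl
    rw [← Nat.cast_mul, h2, Nat.cast_prod]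
    have hp : (N : ℝ) ^ (q + 1) = ∏ _i ∈ range (q + 1), (N : ℝ) := by simp
    rw [hp, ← Finset.prod_div_distrib]
    refine Finset.prod_congr rfl fun i _ => ?_
    push_cast
    field_simp
  have h3 : Tendsto (fun N : ℕ => ∏ i ∈ range (q + 1), ((M : ℝ) + (i : ℝ) / (N : ℝ))) atTop
      (𝓝 (∏ _i ∈ range (q + 1), ((M : ℝ) + 0))) := by
    refine tendsto_finset_prod _ fun i _ => ?_
    exact tendsto_const_nhds.add (tendsto_const_div_atTop_nhds_zero_nat (i : ℝ))
  have h4 : (∏ _i ∈ range (q + 1), ((M : ℝ) + 0)) = (M : ℝ) ^ (q + 1) := by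
    simp
  rw [h4] at h3
  refine h3.congr' ?_
  filter_upwards [eventually_gt_atTop 0] with N hN
  exact (h1 N hN).symm

lemma exists_lim_G (q : ℕ) (hq : q ≤ d) (s : ℕ) (hs : s ≤ d) :
    ∃ γ : ℝ, Tendsto (fun N : ℕ => ((q + 1).factorial : ℝ) * (G q hq s N : ℕ) / (N : ℝ) ^ (q + 1))
      atTop (𝓝 γ) := by
  induction s using Nat.strong_induction_on with
  | _ s ih =>
    have ih' : ∀ s' : ℕ, ∃ γ : ℝ, s' < s → Tendsto (fun N : ℕ => ((q + 1).factorial : ℝ) * (G q hq s' N : ℕ) /
        (N : ℝ) ^ (q + 1)) atTop (𝓝 γ) := by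
      intro s'
      by_cases h : s' < s
      · obtain ⟨γ, hγ⟩ := ih s' h (by omega)
        exact ⟨γ, fun _ => hγ⟩
      · exact ⟨0, fun h' => absurd h' h⟩
    choose γ hγ using ih'
    refine ⟨((s + 1 : ℕ) : ℝ) ^ (q + 1) - ∑ s' ∈ range s, ((s + 1).choose (s' + 1) : ℝ) * γ s', ?_⟩
    have h1 := lim_choose q (s + 1)
    have h2 : Tendsto (fun N : ℕ => ∑ s' ∈ range s, ((s + 1).choose (s' + 1) : ℝ) *
        (((q + 1).factorial : ℝ) * (G q hq s' N : ℕ) / (N : ℝ) ^ (q + 1))) atTop
        (𝓝 (∑ s' ∈ range s, ((s + 1).choose (s' + 1) : ℝ) * γ s')) := by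
      refine tendsto_finset_sum _ fun s' hs' => ?_
      exact (hγ s' (Finset.mem_range.1 hs')).const_mul _
    refine (h1.sub h2).congr' ?_
    filter_upwards [eventually_gt_atTop 0] with N hN
    have h3 := G_total q hq N hN (s + 1)
    have h4 : ∑ s' ∈ range (d + 1), (s + 1).choose (s' + 1) * G q hq s' N =
        ∑ s' ∈ range s, (s + 1).choose (s' + 1) * G q hq s' N + G q hq s N := by
      have h5 : ∑ s' ∈ range (s + 1), (s + 1).choose (s' + 1) * G q hq s' N =
          ∑ s' ∈ range (d + 1), (s + 1).choose (s' + 1) * G q hq s' N := by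
        refine Finset.sum_subset (by intro x; simp; omega) ?_
        intro x _ hx
        rw [Nat.choose_eq_zero_of_lt, zero_mul]
        simp at hx; omega
      rw [← h5, Finset.sum_range_succ]
      simp
    rw [h4] at h3
    rw [← h3]
    push_cast
    rw [mul_add, Finset.mul_sum, add_div, Finset.sum_div]
    have h6 : ∀ s' ∈ range s, ((q + 1).factorial : ℝ) * (((s + 1).choose (s' + 1) : ℝ) * (G q hq s' N : ℝ)) /
        (N : ℝ) ^ (q + 1) = ((s + 1).choose (s' + 1) : ℝ) *
        (((q + 1).factorial : ℝ) * (G q hq s' N : ℝ) / (N : ℝ) ^ (q + 1)) := by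
      intro s' _
      ring
    rw [Finset.sum_congr rfl h6]
    ring

/-- the limit weights -/
noncomputable def gam (d q s : ℕ) : ℝ :=
  if h : q ≤ d ∧ s ≤ d then (exists_lim_G q h.1 s h.2).choose else 0

lemma gam_spec (q : ℕ) (hq : q ≤ d) (s : ℕ) (hs : s ≤ d) :
    Tendsto (fun N : ℕ => ((q + 1).factorial : ℝ) * (G q hq s N : ℕ) / (N : ℝ) ^ (q + 1))
      atTop (𝓝 (gam d q s)) := by
  unfold gam
  rw [dif_pos ⟨hq, hs⟩]
  exact (exists_lim_G q hq s hs).choose_spec

lemma gam_total (q : ℕ) (hq : q ≤ d) (M : ℕ) :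
    ∑ s ∈ range (d + 1), (M.choose (s + 1) : ℝ) * gam d q s = (M : ℝ) ^ (q + 1) := by
  have h1 : Tendsto (fun N : ℕ => ∑ s ∈ range (d + 1), (M.choose (s + 1) : ℝ) *
      (((q + 1).factorial : ℝ) * (G q hq s N : ℕ) / (N : ℝ) ^ (q + 1))) atTop
      (𝓝 (∑ s ∈ range (d + 1), (M.choose (s + 1) : ℝ) * gam d q s)) := by
    refine tendsto_finset_sum _ fun s hs => ?_
    exact (gam_spec q hq s (by simp at hs; omega)).const_mul _
  refine tendsto_nhds_unique h1 ((lim_choose q M).congr' ?_)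
  filter_upwards [eventually_gt_atTop 0] with N hN
  rw [← G_total q hq N hN M]
  push_cast
  rw [Finset.mul_sum, Finset.sum_div]
  refine Finset.sum_congr rfl fun s _ => ?_
  ring

lemma asc_total (d M : ℕ) :
    ∑ q ∈ range (d + 1), ((ascPochhammer ℕ (d + 1)).coeff (q + 1) : ℝ) * (M : ℝ) ^ (q + 1) =
      ∑ s ∈ range (d + 1), (M.choose (s + 1) : ℝ) * (((d + 1).factorial : ℝ) * (d.choose s : ℝ)) := by
  have h1 : (ascPochhammer ℕ (d + 1)).eval M = ∑ q ∈ range (d + 1), (ascPochhammer ℕ (d + 1)).coeff (q + 1) * M ^ (q + 1) := by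
    rw [Polynomial.eval_eq_sum_range' (n := d + 2)]
    · rw [Finset.sum_range_succ']
      have : (ascPochhammer ℕ (d + 1)).coeff 0 = 0 := by
        rw [Polynomial.coeff_zero_eq_eval_zero]
        simp
      rw [this]; simp
    · rw [ascPochhammer_natDegree]; omega
  have h2 : (ascPochhammer ℕ (d + 1)).eval M = (d + 1).factorial * (M + d).choose (d + 1) := by
    rw [ascPochhammer_nat_eq_ascFactorial, Nat.ascFactorial_eq_factorial_mul_choose']
    rfl
  have h3 : (M + d).choose (d + 1) = ∑ s ∈ range (d + 1), M.choose (s + 1) * d.choose s := by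
    rw [Nat.add_choose_eq, Finset.Nat.sum_antidiagonal_eq_sum_range_succ_mk, Finset.sum_range_succ']
    have : M.choose 0 * d.choose (d + 1 - 0) = 0 := by simp
    dsimp only
    rw [this, add_zero]
    refine Finset.sum_congr rfl fun s hs => ?_
    have hs' : s ≤ d := by simp at hs; omega
    rw [show d + 1 - (s + 1) = d - s by omega, Nat.choose_symm hs']
  have h4 : ∑ q ∈ range (d + 1), (ascPochhammer ℕ (d + 1)).coeff (q + 1) * M ^ (q + 1) =
      ∑ s ∈ range (d + 1), M.choose (s + 1) * ((d + 1).factorial * d.choose s) := by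
    rw [← h1, h2, h3, Finset.mul_sum]
    refine Finset.sum_congr rfl fun s _ => ?_
    ring
  exact_mod_cast h4

lemma theta (d s : ℕ) (hs : s ≤ d) :
    ∑ q ∈ range (d + 1), ((ascPochhammer ℕ (d + 1)).coeff (q + 1) : ℝ) * gam d q s =
      ((d + 1).factorial : ℝ) * (d.choose s : ℝ) := by
  have key : ∀ M : ℕ, ∑ s ∈ range (d + 1), (M.choose (s + 1) : ℝ) *
      (∑ q ∈ range (d + 1), ((ascPochhammer ℕ (d + 1)).coeff (q + 1) : ℝ) * gam d q s -
        ((d + 1).factorial : ℝ) * (d.choose s : ℝ)) = 0 := by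
    intro M
    simp only [mul_sub, Finset.sum_sub_distrib]
    rw [← asc_total, sub_eq_zero]
    simp only [Finset.mul_sum]
    rw [Finset.sum_comm]
    refine Finset.sum_congr rfl fun q hq => ?_
    rw [← gam_total q (by simp at hq; omega) M, Finset.mul_sum]
    refine Finset.sum_congr rfl fun s _ => ?_
    ring
  rw [← sub_eq_zero]
  induction s using Nat.strong_induction_on with
  | _ s ih =>
    have h1 := key (s + 1)
    have h5 : ∑ s' ∈ range (s + 1), ((s + 1).choose (s' + 1) : ℝ) *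
      (∑ q ∈ range (d + 1), ((ascPochhammer ℕ (d + 1)).coeff (q + 1) : ℝ) * gam d q s' -
        ((d + 1).factorial : ℝ) * (d.choose s' : ℝ)) = 0 := by
      rw [← h1]
      refine Finset.sum_subset (by intro x; simp; omega) ?_
      intro x _ hx
      rw [Nat.choose_eq_zero_of_lt, Nat.cast_zero, zero_mul]
      simp at hx; omega
    rw [Finset.sum_range_succ] at h5
    have h6 : ∑ s' ∈ range s, ((s + 1).choose (s' + 1) : ℝ) *
      (∑ q ∈ range (d + 1), ((ascPochhammer ℕ (d + 1)).coeff (q + 1) : ℝ) * gam d q s' -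
        ((d + 1).factorial : ℝ) * (d.choose s' : ℝ)) = 0 := by
      refine Finset.sum_eq_zero fun s' hs' => ?_
      rw [ih s' (Finset.mem_range.1 hs') (by have := Finset.mem_range.1 hs'; omega), mul_zero]
    rw [h6, zero_add, Nat.choose_self, Nat.cast_one, one_mul] at h5
    exact h5

end Pool.Agent.W461.SL
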