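import Mathlib
import Pool.Agent.W461.SL.Std

set_option autoImplicit false

open MvPolynomial MonomialOrder

namespace Pool.Agent.W461.SL

variable {k : Type*} [Field k]

lemma pow_quot_bound {n : ℕ} (m : MonomialOrder (Fin n)) (K : Ideal (MvPolynomial (Fin n) k))
    [Module.Finite k (MvPolynomial (Fin n) k ⧸ K)] (M : ℕ) (hM : 0 < M) :
    Module.Finite k (MvPolynomial (Fin n) k ⧸ K ^ M) ∧
    Module.finrank k (MvPolynomial (Fin n) k ⧸ K ^ M) ≤
      M ^ n * Module.finrank k (MvPolynomial (Fin n) k ⧸ K) := by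
  classical
  set C : Finset (Fin n →₀ ℕ) := (compl_finite m K).toFinset with hC
  have hCc : C.card ≤ Module.finrank k (MvPolynomial (Fin n) k ⧸ K) :=
    card_le_finrank m K C (fun a ha => by simpa [hC] using ha)
  set T : Finset (Fin n →₀ ℕ) := (C ×ˢ (Finset.univ : Finset (Fin n → Fin M))).image
    (fun p => M • p.1 + Finsupp.equivFunOnFinite.symm (fun i => (p.2 i : ℕ))) with hT
  have hTc : T.card ≤ M ^ n * Module.finrank k (MvPolynomial (Fin n) k ⧸ K) := by
    refine Finset.card_image_le.trans ?_
    rw [Finset.card_product, Finset.card_univ, Fintype.card_fun, Fintype.card_fin, Fintype.card_fin,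
      mul_comm]
    exact Nat.mul_le_mul_left _ hCc
  have hTE : ∀ a, a ∉ T → a ∈ E m (K ^ M) := by
    intro a haT
    set b : Fin n →₀ ℕ := Finsupp.equivFunOnFinite.symm (fun i => a i / M) with hb
    by_cases hbE : b ∈ E m K
    · have h1 := E_pow_sum m M (fun _ => b) (fun u _ => hbE)
      refine E_of_le m h1 ?_
      rw [Finset.sum_const, Finset.card_range]
      intro i
      simp only [hb, Finsupp.smul_apply, Finsupp.equivFunOnFinite_symm_apply_apply, smul_eq_mul]
      exact Nat.mul_div_le _ _
    · exfalso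
      apply haT
      rw [hT, Finset.mem_image]
      refine ⟨(b, fun i => ⟨a i % M, Nat.mod_lt _ hM⟩), ?_, ?_⟩
      · simp [hC, hbE]
      · ext i
        simp only [hb, Finsupp.add_apply, Finsupp.smul_apply,
          Finsupp.equivFunOnFinite_symm_apply_apply, smul_eq_mul]
        exact Nat.div_add_mod _ _
  exact ⟨finite_quot m _ T hTE, (finrank_le_card m _ T hTE).trans hTc⟩

end Pool.Agent.W461.SL
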