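import Mathlib
import Pool.Agent.W461.SL.Lech

set_option autoImplicit false

open MvPolynomial MonomialOrder

namespace Pool.Agent.W461.SL

variable {k : Type*} [Field k]

/-- The ideal generated by the first `i` linear forms with coefficient vectors `c j`. -/
noncomputable def LI {d : ℕ} (c : Fin d → Fin (d + 1) → k) (i : ℕ) : Ideal (MvPolynomial (Fin (d + 1)) k) :=
  Ideal.span {f | ∃ j : Fin d, j.val < i ∧ f = ∑ t : Fin (d + 1), c j t • X t}

/-- Splitting of the variables. -/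
def spl {d q i : ℕ} (h : q + 1 + i = d + 1) : Fin (q + 1) ⊕ Fin i ≃ Fin (d + 1) :=
  finSumFinEquiv.trans (finCongr h)

/-- The square matrix of the coefficients of the last `i` variables in the first `i` forms. -/
def BM {d q i : ℕ} (h : q + 1 + i = d + 1) (c : Fin d → Fin (d + 1) → k) :
    Matrix (Fin i) (Fin i) k :=
  Matrix.of fun j s => c ⟨j.val, by omega⟩ (spl h (Sum.inr s))

lemma sup_pow_le {R : Type*} [CommRing R] (J L : Ideal R) (M : ℕ) :
    (J ⊔ L) ^ M ≤ J ^ M ⊔ L := by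
  induction M with
  | zero => simp
  | succ M ih =>
    rw [pow_succ, pow_succ]
    refine (Ideal.mul_mono ih le_rfl).trans ?_
    rw [Ideal.sup_mul, Ideal.mul_sup]
    refine sup_le (sup_le le_sup_left ?_) ?_
    · exact le_trans (Ideal.mul_le_right (I := J ^ M) (J := L)) le_sup_right
    · exact le_trans (Ideal.mul_le_left (I := L) (J := J ⊔ L)) le_sup_right

lemma mk_surj {d q i : ℕ} (h : q + 1 + i = d + 1) (c : Fin d → Fin (d + 1) → k)
    (hB : (BM h c).det ≠ 0) :
    Function.Surjective ((Ideal.Quotient.mkₐ k (LI c i)).comp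
      (rename (fun t : Fin (q + 1) => spl h (Sum.inl t)) :
        MvPolynomial (Fin (q + 1)) k →ₐ[k] MvPolynomial (Fin (d + 1)) k)) := by
  classical
  set ψ := ((Ideal.Quotient.mkₐ k (LI c i)).comp
      (rename (fun t : Fin (q + 1) => spl h (Sum.inl t)) :
        MvPolynomial (Fin (q + 1)) k →ₐ[k] MvPolynomial (Fin (d + 1)) k)) with hψ
  set xb : Fin (d + 1) → (MvPolynomial (Fin (d + 1)) k ⧸ LI c i) :=
    fun t => Ideal.Quotient.mkₐ k (LI c i) (X t) with hxb
  have hinl : ∀ t : Fin (q + 1), xb (spl h (Sum.inl t)) ∈ ψ.range := by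
    intro t
    refine ⟨X t, ?_⟩
    simp [hψ, hxb]
  have hunit : IsUnit (BM h c).det := isUnit_iff_ne_zero.2 hB
  have hinr : ∀ s : Fin i, xb (spl h (Sum.inr s)) ∈ ψ.range := by
    intro s
    have hrel : ∀ j : Fin i, ∑ s', (BM h c) j s' • xb (spl h (Sum.inr s')) =
        - ∑ t, c ⟨j.val, by omega⟩ (spl h (Sum.inl t)) • xb (spl h (Sum.inl t)) := by
      intro j
      have h0 : (∑ t : Fin (d + 1), c ⟨j.val, by omega⟩ t • X t :
          MvPolynomial (Fin (d + 1)) k) ∈ LI c i :=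
        Ideal.subset_span ⟨⟨j.val, by omega⟩, j.2, rfl⟩
      have h1 : Ideal.Quotient.mkₐ k (LI c i) (∑ t : Fin (d + 1), c ⟨j.val, by omega⟩ t • X t) = 0 := by
        rw [Ideal.Quotient.mkₐ_eq_mk]; exact Ideal.Quotient.eq_zero_iff_mem.2 h0
      rw [map_sum] at h1
      simp only [map_smul] at h1
      rw [← (spl h).sum_comp, Fintype.sum_sum_type] at h1
      refine eq_neg_of_add_eq_zero_left ?_
      refine (add_comm _ _).trans ?_
      exact h1
    have hinv : xb (spl h (Sum.inr s)) =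
        ∑ j, (BM h c)⁻¹ s j • ∑ s', (BM h c) j s' • xb (spl h (Sum.inr s')) := by
      simp only [Finset.smul_sum, smul_smul]
      rw [Finset.sum_comm]
      have h2 : ∀ s' : Fin i, ∑ j, ((BM h c)⁻¹ s j * (BM h c) j s') • xb (spl h (Sum.inr s')) =
          (1 : Matrix (Fin i) (Fin i) k) s s' • xb (spl h (Sum.inr s')) := by
        intro s'
        rw [← Finset.sum_smul, ← Matrix.nonsing_inv_mul _ hunit, Matrix.mul_apply]
      simp only [h2, Matrix.one_apply]
      simp
    rw [hinv]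
    refine Subalgebra.sum_mem _ fun j _ => Subalgebra.smul_mem _ ?_ _
    rw [hrel j]
    refine Subalgebra.neg_mem _ (Subalgebra.sum_mem _ fun t _ => Subalgebra.smul_mem _ (hinl t) _)
  have hall : ∀ t, xb t ∈ ψ.range := by
    intro t
    obtain ⟨a, rfl⟩ := (spl h).surjective t
    rcases a with a | a
    · exact hinl a
    · exact hinr a
  intro x
  obtain ⟨f, rfl⟩ := Ideal.Quotient.mkₐ_surjective k (LI c i) x
  change _ ∈ ψ.range
  induction f using MvPolynomial.induction_on with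
  | C a =>
    have : Ideal.Quotient.mkₐ k (LI c i) (C a) = algebraMap k _ a := by
      rw [← MvPolynomial.algebraMap_eq]
      exact AlgHom.commutes _ _
    rw [this]
    exact Subalgebra.algebraMap_mem _ _
  | add f g hf hg => rw [map_add]; exact Subalgebra.add_mem _ hf hg
  | mul_X f t hf => rw [map_mul]; exact Subalgebra.mul_mem _ hf (hall t)

lemma lin_bound {d q i : ℕ} (h : q + 1 + i = d + 1) (c : Fin d → Fin (d + 1) → k)
    (hB : (BM h c).det ≠ 0) (J : Ideal (MvPolynomial (Fin (d + 1)) k))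
    [Module.Finite k (MvPolynomial (Fin (d + 1)) k ⧸ (J ⊔ LI c i))] (M : ℕ) (hM : 0 < M) :
    Module.Finite k (MvPolynomial (Fin (d + 1)) k ⧸ (J ^ M ⊔ LI c i)) ∧
    Module.finrank k (MvPolynomial (Fin (d + 1)) k ⧸ (J ^ M ⊔ LI c i)) ≤
      M ^ (q + 1) * Module.finrank k (MvPolynomial (Fin (d + 1)) k ⧸ (J ⊔ LI c i)) := by
  classical
  set ι : MvPolynomial (Fin (q + 1)) k →ₐ[k] MvPolynomial (Fin (d + 1)) k :=
    rename (fun t : Fin (q + 1) => spl h (Sum.inl t)) with hι
  set b : Ideal (MvPolynomial (Fin (q + 1)) k) := (J ⊔ LI c i).comap ι with hb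
  -- the injection S'/b → S/(J ⊔ L)
  set f1 : (MvPolynomial (Fin (q + 1)) k ⧸ b) →ₐ[k] (MvPolynomial (Fin (d + 1)) k ⧸ (J ⊔ LI c i)) :=
    Ideal.quotientMapₐ (J ⊔ LI c i) ι le_rfl with hf1
  have hf1inj : Function.Injective f1 := Ideal.quotientMap_injective
  have : Module.Finite k (MvPolynomial (Fin (q + 1)) k ⧸ b) :=
    Module.Finite.of_injective f1.toLinearMap hf1inj
  have hrank1 : Module.finrank k (MvPolynomial (Fin (q + 1)) k ⧸ b) ≤
      Module.finrank k (MvPolynomial (Fin (d + 1)) k ⧸ (J ⊔ LI c i)) :=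
    LinearMap.finrank_le_finrank_of_injective (f := f1.toLinearMap) hf1inj
  obtain ⟨hfin2, hrank2⟩ := pow_quot_bound (MonomialOrder.lex (σ := Fin (q + 1))) b M hM
  -- the surjection S'/b^M → S/(J^M ⊔ L)
  have hle : b ^ M ≤ (J ^ M ⊔ LI c i).comap ι := by
    rw [← Ideal.map_le_iff_le_comap, Ideal.map_pow]
    have h1 : Ideal.map ι b ≤ J ⊔ LI c i := Ideal.map_comap_le
    refine (Ideal.pow_right_mono h1 M).trans ?_
    exact sup_pow_le _ _ _
  set f2 : (MvPolynomial (Fin (q + 1)) k ⧸ b ^ M) →ₐ[k]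
      (MvPolynomial (Fin (d + 1)) k ⧸ (J ^ M ⊔ LI c i)) :=
    Ideal.quotientMapₐ (J ^ M ⊔ LI c i) ι hle with hf2
  have hf2surj : Function.Surjective f2 := by
    intro x
    obtain ⟨f, rfl⟩ := Ideal.Quotient.mkₐ_surjective k _ x
    obtain ⟨g, hg⟩ := mk_surj h c hB (Ideal.Quotient.mkₐ k (LI c i) f)
    refine ⟨Ideal.Quotient.mkₐ k _ g, ?_⟩
    have h3 : ι g - f ∈ LI c i := by
      rw [← Ideal.Quotient.eq]
      exact hg
    have h4 : f2 (Ideal.Quotient.mkₐ k (b ^ M) g) = Ideal.Quotient.mkₐ k (J ^ M ⊔ LI c i) (ι g) := rfl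
    rw [h4, Ideal.Quotient.mkₐ_eq_mk, Ideal.Quotient.eq]
    exact Ideal.mem_sup_right h3
  have := hfin2
  refine ⟨Module.Finite.of_surjective f2.toLinearMap hf2surj, ?_⟩
  calc Module.finrank k (MvPolynomial (Fin (d + 1)) k ⧸ (J ^ M ⊔ LI c i))
      ≤ Module.finrank k (MvPolynomial (Fin (q + 1)) k ⧸ b ^ M) :=
        LinearMap.finrank_le_finrank_of_surjective (f := f2.toLinearMap) hf2surj
    _ ≤ M ^ (q + 1) * Module.finrank k (MvPolynomial (Fin (q + 1)) k ⧸ b) := hrank2
    _ ≤ _ := Nat.mul_le_mul_left _ hrank1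

end Pool.Agent.W461.SL
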