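import Mathlib
import Pool.Agent.W461.SL.Lin

set_option autoImplicit false

open MvPolynomial MonomialOrder

namespace Pool.Agent.W461.SL

variable {k : Type*} [Field k]

lemma LI_eq {d : ℕ} (c : Fin d → Fin (d + 1) → k) (i : ℕ) (hi : i ≤ d) :
    LI c i = Ideal.span (Set.range (fun j : Fin i =>
      (∑ t : Fin (d + 1), c ⟨j.val, by omega⟩ t • X t : MvPolynomial (Fin (d + 1)) k))) := by
  unfold LI
  congr 1
  ext f
  constructor
  · rintro ⟨j, hj, rfl⟩
    exact ⟨⟨j.val, hj⟩, rfl⟩
  · rintro ⟨j, rfl⟩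
    exact ⟨⟨j.val, by omega⟩, j.2, rfl⟩

/-- A linear algebra form of semicontinuity. -/
lemma semicont_aux {d : ℕ} {Q : Type*} [CommRing Q] [Algebra k Q] [Module.Finite k Q] (i : ℕ)
    (hi : i ≤ d) (x : Fin (d + 1) → Q) (c₀ : Fin d → Fin (d + 1) → k) :
    ∃ P : MvPolynomial (Fin d × Fin (d + 1)) k, eval (fun p => c₀ p.1 p.2) P ≠ 0 ∧
      ∀ c : Fin d → Fin (d + 1) → k, eval (fun p => c p.1 p.2) P ≠ 0 →
        Module.finrank k ((Ideal.span (Set.range (fun j : Fin i =>
          ∑ t : Fin (d + 1), c₀ ⟨j.val, by omega⟩ t • x t))).restrictScalars k) ≤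
        Module.finrank k ((Ideal.span (Set.range (fun j : Fin i =>
          ∑ t : Fin (d + 1), c ⟨j.val, by omega⟩ t • x t))).restrictScalars k) := by
  classical
  set W : (Fin d → Fin (d + 1) → k) → Submodule k Q := fun c =>
    (Ideal.span (Set.range (fun j : Fin i =>
          ∑ t : Fin (d + 1), c ⟨j.val, by omega⟩ t • x t))).restrictScalars k with hW
  set r := Module.finrank k (W c₀) with hr
  let bs : Module.Basis (Fin r) k (W c₀) := Module.finBasis k (W c₀)
  have hex : ∀ b : Fin r, ∃ g : Fin i → Q,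
      ∑ j, g j * (∑ t : Fin (d + 1), c₀ ⟨j.val, by omega⟩ t • x t) = (bs b : Q) := by
    intro b
    have : (bs b : Q) ∈ Ideal.span (Set.range (fun j : Fin i =>
          ∑ t : Fin (d + 1), c₀ ⟨j.val, by omega⟩ t • x t)) := (bs b).2
    rw [Ideal.mem_span_range_iff_exists_fun] at this
    exact this
  choose g hg using hex
  have hli : LinearIndependent k (fun b => (bs b : Q)) :=
    bs.linearIndependent.map' (W c₀).subtype (Submodule.ker_subtype _)
  have hinj : Function.Injective (Fintype.linearCombination k (fun b => (bs b : Q))) :=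
    linearIndependent_iff_injective_fintypeLinearCombination.1 hli
  obtain ⟨f, hf⟩ := LinearMap.exists_leftInverse_of_injective _ (LinearMap.ker_eq_bot.2 hinj)
  have hfb : ∀ b, f (bs b : Q) = Pi.single b 1 := by
    intro b
    have := LinearMap.congr_fun hf (Pi.single b 1)
    simpa [Fintype.linearCombination_apply, Pi.single_apply] using this
  -- the generic matrix
  set A : Matrix (Fin r) (Fin r) (MvPolynomial (Fin d × Fin (d + 1)) k) :=
    Matrix.of fun a b => ∑ j : Fin i, ∑ t : Fin (d + 1),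
      X ((⟨j.val, by omega⟩ : Fin d), t) * C (f (g b j * x t) a) with hA
  have hev : ∀ (c : Fin d → Fin (d + 1) → k), eval (fun p => c p.1 p.2) A.det =
      (Matrix.of fun a b => f (∑ j, g b j * (∑ t : Fin (d + 1), c ⟨j.val, by omega⟩ t • x t)) a).det := by
    intro c
    rw [RingHom.map_det]
    congr 1
    ext a b
    simp only [hA, RingHom.mapMatrix_apply, Matrix.map_apply, Matrix.of_apply, map_sum, map_mul,
      eval_X, eval_C, Finset.mul_sum, mul_smul_comm, map_smul, Finset.sum_apply, Pi.smul_apply,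
      smul_eq_mul]
  refine ⟨A.det, ?_, ?_⟩
  · rw [hev]
    have : (Matrix.of fun a b => f (∑ j, g b j * (∑ t : Fin (d + 1), c₀ ⟨j.val, by omega⟩ t • x t)) a)
        = (1 : Matrix (Fin r) (Fin r) k) := by
      ext a b
      rw [Matrix.of_apply, hg, hfb, Matrix.one_apply, Pi.single_apply]
    rw [this, Matrix.det_one]
    exact one_ne_zero
  · intro c hc
    rw [hev] at hc
    set w : Fin r → W c := fun b => ⟨∑ j, g b j * (∑ t : Fin (d + 1), c ⟨j.val, by omega⟩ t • x t), by
      change _ ∈ Ideal.span _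
      rw [Ideal.mem_span_range_iff_exists_fun]
      exact ⟨g b, rfl⟩⟩ with hw
    have hliw : LinearIndependent k w := by
      have h1 : LinearIndependent k (fun b => f (w b : Q)) := by
        have h2 := Matrix.linearIndependent_cols_of_det_ne_zero hc
        exact h2
      have h3 : LinearIndependent k (fun b => (w b : Q)) := LinearIndependent.of_comp f h1
      exact LinearIndependent.of_comp (W c).subtype h3
    have := hliw.fintype_card_le_finrank
    simpa using this

lemma finrank_quot_sup {S : Type*} [CommRing S] [Algebra k S] (J L : Ideal S)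
    [Module.Finite k (S ⧸ J)] :
    Module.finrank k (S ⧸ (J ⊔ L)) +
      Module.finrank k ((L.map (Ideal.Quotient.mk J)).restrictScalars k) =
      Module.finrank k (S ⧸ J) := by
  have h1 := (DoubleQuot.quotQuotEquivQuotSupₐ k J L).toLinearEquiv.finrank_eq
  rw [← h1]
  have h2 := Submodule.finrank_quotient_add_finrank ((L.map (Ideal.Quotient.mk J)).restrictScalars k)
  have h3 := (Submodule.Quotient.restrictScalarsEquiv k (L.map (Ideal.Quotient.mk J))).finrank_eq
  rw [← h2, h3]
  rfl

lemma finite_quot_sup {S : Type*} [CommRing S] [Algebra k S] (J L : Ideal S)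
    [Module.Finite k (S ⧸ J)] : Module.Finite k (S ⧸ (J ⊔ L)) :=
  Module.Finite.of_surjective (Ideal.Quotient.factorₐ k (le_sup_left : J ≤ J ⊔ L)).toLinearMap
    (Ideal.Quotient.factor_surjective le_sup_left)

lemma semicont {d : ℕ} (J : Ideal (MvPolynomial (Fin (d + 1)) k))
    [Module.Finite k (MvPolynomial (Fin (d + 1)) k ⧸ J)] (i : ℕ) (hi : i ≤ d)
    (c₀ : Fin d → Fin (d + 1) → k) :
    ∃ P : MvPolynomial (Fin d × Fin (d + 1)) k, eval (fun p => c₀ p.1 p.2) P ≠ 0 ∧
      ∀ c : Fin d → Fin (d + 1) → k, eval (fun p => c p.1 p.2) P ≠ 0 →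
        Module.finrank k (MvPolynomial (Fin (d + 1)) k ⧸ (J ⊔ LI c i)) ≤
        Module.finrank k (MvPolynomial (Fin (d + 1)) k ⧸ (J ⊔ LI c₀ i)) := by
  obtain ⟨P, hP0, hP⟩ := semicont_aux (k := k) (d := d) (Q := MvPolynomial (Fin (d + 1)) k ⧸ J) i hi
    (fun t => Ideal.Quotient.mk J (X t)) c₀
  refine ⟨P, hP0, fun c hc => ?_⟩
  have hmap : ∀ c : Fin d → Fin (d + 1) → k, (LI c i).map (Ideal.Quotient.mk J) =
      Ideal.span (Set.range (fun j : Fin i =>
          ∑ t : Fin (d + 1), c ⟨j.val, by omega⟩ t • Ideal.Quotient.mk J (X t))) := by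
    intro c
    rw [LI_eq c i hi, Ideal.map_span, ← Set.range_comp]
    congr 2
    funext j
    simp only [Function.comp_apply, map_sum]
    rfl
  have h1 := finrank_quot_sup (k := k) J (LI c i)
  have h2 := finrank_quot_sup (k := k) J (LI c₀ i)
  have h3 := hP c hc
  rw [hmap] at h1 h2
  omega

end Pool.Agent.W461.SL
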