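import Mathlib
import Pool.Agent.W461.SL.Semi
import Pool.Agent.W461.SL.Comb2

set_option autoImplicit false

open MvPolynomial MonomialOrder Filter Topology

namespace Pool.Agent.W461.SL

variable {k : Type*} [Field k] {d : ℕ}

/-- The special system of linear forms attached to a permutation. -/
def cσ (σ : Equiv.Perm (Fin d)) : Fin d → Fin (d + 1) → k :=
  fun j t => if t = (σ (Fin.rev j)).succ then 1 else 0

lemma X_mem_LI (σ : Equiv.Perm (Fin d)) (q : ℕ) (hq : q ≤ d) (j : Fin d) (hj : q ≤ j.val) :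
    (X (σ j).succ : MvPolynomial (Fin (d + 1)) k) ∈ LI (cσ (k := k) σ) (d - q) := by
  refine Ideal.subset_span ⟨Fin.rev j, ?_, ?_⟩
  · rw [Fin.val_rev]; omega
  · simp [cσ, Fin.rev_rev]

lemma H_sum (q : ℕ) (hq : q ≤ d) (N : ℕ) (b : Fin d →₀ ℕ) :
    (d.choose b.support.card : ℝ) * ∑ σ : Equiv.Perm (Fin d), ((WW σ q hq N b).card : ℝ) =
      (d.factorial : ℝ) * (G q hq b.support.card N : ℝ) := by
  have h := sum_perm (fun U => H q hq N U) b.support
  have h2 : ∑ σ : Equiv.Perm (Fin d), (WW σ q hq N b).card =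
      ∑ σ : Equiv.Perm (Fin d), H q hq N (b.support.map σ.toEmbedding) := by
    rw [← Equiv.sum_comp (Equiv.inv (Equiv.Perm (Fin d)))]
    refine Finset.sum_congr rfl fun σ _ => ?_
    rw [card_WW]
    rfl
  rw [← h2] at h
  unfold G
  exact_mod_cast h

lemma avg_bound (m : MonomialOrder (Fin (d + 1))) (I : Ideal (MvPolynomial (Fin (d + 1)) k))
    [Module.Finite k (MvPolynomial (Fin (d + 1)) k ⧸ I)] (q : ℕ) (hq : q ≤ d) (N : ℕ) (hN : 0 < N)
    (A : ℕ) (hA : ∀ σ : Equiv.Perm (Fin d), A ≤ Module.finrank k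
      (MvPolynomial (Fin (d + 1)) k ⧸ (I ^ N ⊔ LI (cσ (k := k) σ) (d - q)))) :
    (A : ℝ) ≤ ∑ b ∈ BB m I, (phi m I b : ℝ) * ((G q hq b.support.card N : ℝ) /
      (d.choose b.support.card : ℝ)) := by
  have h1 : ∀ σ : Equiv.Perm (Fin d), (A : ℝ) ≤ ∑ b ∈ BB m I, (phi m I b : ℝ) * ((WW σ q hq N b).card : ℝ) := by
    intro σ
    have := (hA σ).trans (count_bound m I σ q hq N hN _ le_sup_left
      (fun j hj => Ideal.mem_sup_right (X_mem_LI σ q hq j hj)))
    exact_mod_cast this
  have h2 : (d.factorial : ℝ) * (A : ℝ) ≤ ∑ σ : Equiv.Perm (Fin d), ∑ b ∈ BB m I,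
      (phi m I b : ℝ) * ((WW σ q hq N b).card : ℝ) := by
    have h3 : ∑ σ : Equiv.Perm (Fin d), (A : ℝ) = (d.factorial : ℝ) * (A : ℝ) := by
      rw [Finset.sum_const, Finset.card_univ, Fintype.card_perm, Fintype.card_fin, nsmul_eq_mul]
    rw [← h3]
    exact Finset.sum_le_sum fun σ _ => h1 σ
  have hf : (0 : ℝ) < (d.factorial : ℝ) := by exact_mod_cast d.factorial_pos
  rw [Finset.sum_comm] at h2
  have h4 : ∑ b ∈ BB m I, ∑ σ : Equiv.Perm (Fin d), (phi m I b : ℝ) * ((WW σ q hq N b).card : ℝ) =
      (d.factorial : ℝ) * ∑ b ∈ BB m I, (phi m I b : ℝ) * ((G q hq b.support.card N : ℝ) /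
      (d.choose b.support.card : ℝ)) := by
    rw [Finset.mul_sum]
    refine Finset.sum_congr rfl fun b _ => ?_
    rw [← Finset.mul_sum]
    have h5 := H_sum q hq N b
    have hc : (0 : ℝ) < (d.choose b.support.card : ℝ) := by
      have : b.support.card ≤ d := by
        have := Finset.card_le_univ b.support
        simpa using this
      exact_mod_cast Nat.choose_pos this
    have h6 : ∑ σ : Equiv.Perm (Fin d), ((WW σ q hq N b).card : ℝ) =
        (d.factorial : ℝ) * ((G q hq b.support.card N : ℝ) / (d.choose b.support.card : ℝ)) := by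
      field_simp
      linarith
    rw [h6]
    ring
  rw [h4] at h2
  exact le_of_mul_le_mul_left h2 hf

lemma gam_zero_zero (d : ℕ) : gam d 0 0 = 1 := by
  have h := gam_total (d := d) 0 (Nat.zero_le _) 1
  rw [Finset.sum_range_succ'] at h
  have h0 : ∑ s ∈ Finset.range d, ((1 : ℕ).choose (s + 1 + 1) : ℝ) * gam d 0 (s + 1) = 0 := by
    refine Finset.sum_eq_zero fun s _ => ?_
    rw [Nat.choose_eq_zero_of_lt (by omega)]
    simp
  rw [h0] at h
  simpa using h

lemma gam_nonneg (d q s : ℕ) (hq : q ≤ d) (hs : s ≤ d) : 0 ≤ gam d q s := by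
  refine ge_of_tendsto' (gam_spec q hq s hs) fun N => ?_
  positivity

lemma exists_N (m : MonomialOrder (Fin (d + 1))) (I : Ideal (MvPolynomial (Fin (d + 1)) k))
    [Module.Finite k (MvPolynomial (Fin (d + 1)) k ⧸ I)] (hI : I ≠ ⊤) :
    ∃ N : ℕ, 0 < N ∧ ∑ i : Fin d, ((ascPochhammer ℕ (d+1)).coeff (d+1-i.val) : ℝ) *
      (((d + 1 - i.val).factorial : ℝ) * (∑ b ∈ BB m I, (phi m I b : ℝ) *
        ((G (d - i.val) (Nat.sub_le _ _) b.support.card N : ℝ) /
      (d.choose b.support.card : ℝ))) / (N : ℝ) ^ (d + 1 - i.val)) ≤ ((d + 1).factorial : ℝ) *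
      (Module.finrank k (MvPolynomial (Fin (d + 1)) k ⧸ I) : ℝ) := by
  have hlim : Tendsto (fun N : ℕ => ∑ i : Fin d, ((ascPochhammer ℕ (d+1)).coeff (d+1-i.val) : ℝ) *
      (((d + 1 - i.val).factorial : ℝ) * (∑ b ∈ BB m I, (phi m I b : ℝ) *
        ((G (d - i.val) (Nat.sub_le _ _) b.support.card N : ℝ) /
      (d.choose b.support.card : ℝ))) / (N : ℝ) ^ (d + 1 - i.val))) atTop
      (𝓝 (∑ i : Fin d, ((ascPochhammer ℕ (d+1)).coeff (d+1-i.val) : ℝ) *
        ∑ b ∈ BB m I, (phi m I b : ℝ) * (gam d (d - i.val) b.support.card /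
          (d.choose b.support.card : ℝ)))) := by
    refine tendsto_finsetSum _ fun i _ => ?_
    refine Tendsto.const_mul _ ?_
    have h1 : Tendsto (fun N : ℕ => ∑ b ∈ BB m I, (phi m I b : ℝ) *
        ((((d - i.val) + 1).factorial : ℝ) * (G (d - i.val) (Nat.sub_le _ _) b.support.card N : ℝ) /
        (N : ℝ) ^ ((d - i.val) + 1) / (d.choose b.support.card : ℝ))) atTop
        (𝓝 (∑ b ∈ BB m I, (phi m I b : ℝ) * (gam d (d - i.val) b.support.card /
          (d.choose b.support.card : ℝ)))) := by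
      refine tendsto_finsetSum _ fun b _ => ?_
      refine Tendsto.const_mul _ ?_
      refine Tendsto.div_const ?_ _
      refine gam_spec (d - i.val) (Nat.sub_le _ _) b.support.card ?_
      have := Finset.card_le_univ b.support
      simpa using this
    refine h1.congr fun N => ?_
    have h2 : d + 1 - i.val = (d - i.val) + 1 := by have := i.2; omega
    rw [h2, Finset.mul_sum, Finset.sum_div]
    refine Finset.sum_congr rfl fun b _ => ?_
    ring
  have hval : ∑ i : Fin d, ((ascPochhammer ℕ (d+1)).coeff (d+1-i.val) : ℝ) *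
        ∑ b ∈ BB m I, (phi m I b : ℝ) * (gam d (d - i.val) b.support.card /
          (d.choose b.support.card : ℝ)) < ((d + 1).factorial : ℝ) *
      (Module.finrank k (MvPolynomial (Fin (d + 1)) k ⧸ I) : ℝ) := by
    -- rewrite as a sum over b
    have h1 : ∑ i : Fin d, ((ascPochhammer ℕ (d+1)).coeff (d+1-i.val) : ℝ) *
        ∑ b ∈ BB m I, (phi m I b : ℝ) * (gam d (d - i.val) b.support.card /
          (d.choose b.support.card : ℝ)) =
        ∑ b ∈ BB m I, (phi m I b : ℝ) / (d.choose b.support.card : ℝ) *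
          ∑ q ∈ Finset.range d, ((ascPochhammer ℕ (d+1)).coeff (q + 1 + 1) : ℝ) *
            gam d (q + 1) b.support.card := by
      simp only [Finset.mul_sum]
      rw [Finset.sum_comm]
      refine Finset.sum_congr rfl fun b _ => ?_
      rw [Finset.sum_range (fun q => (phi m I b : ℝ) / (d.choose b.support.card : ℝ) *
        (((ascPochhammer ℕ (d+1)).coeff (q + 1 + 1) : ℝ) * gam d (q + 1) b.support.card)),
        ← Equiv.sum_comp Fin.revPerm]
      refine Finset.sum_congr rfl fun i _ => ?_
      have e1 : d + 1 - i.val = (Fin.revPerm i).val + 1 + 1 := by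
        have := i.2
        simp [Fin.val_rev]; omega
      have e2 : d - i.val = (Fin.revPerm i).val + 1 := by
        have := i.2
        simp [Fin.val_rev]; omega
      have e3 : d + 1 - (Fin.revPerm i).val = i.val + 1 + 1 := by
        have := i.2
        simp [Fin.val_rev]; omega
      have e4 : d - (Fin.revPerm i).val = i.val + 1 := by
        have := i.2
        simp [Fin.val_rev]; omega
      rw [e3, e4]
      ring
    rw [h1]
    have hcoeff : (0 : ℝ) < ((ascPochhammer ℕ (d+1)).coeff 1 : ℝ) := by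
      have : (ascPochhammer ℕ (d + 1)).coeff 1 = d.factorial := by
        rw [ascPochhammer_succ_left, Polynomial.coeff_X_mul, Polynomial.coeff_zero_eq_eval_zero,
          Polynomial.eval_comp]
        simp
      rw [this]
      exact_mod_cast d.factorial_pos
    have h2 : ∀ b ∈ BB m I, (phi m I b : ℝ) / (d.choose b.support.card : ℝ) *
          ∑ q ∈ Finset.range d, ((ascPochhammer ℕ (d+1)).coeff (q + 1 + 1) : ℝ) *
            gam d (q + 1) b.support.card =
            ((d + 1).factorial : ℝ) * (phi m I b : ℝ) - (phi m I b : ℝ) / (d.choose b.support.card : ℝ) *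
              (((ascPochhammer ℕ (d+1)).coeff 1 : ℝ) * gam d 0 b.support.card) := by
      intro b _
      have hs : b.support.card ≤ d := by
        have := Finset.card_le_univ b.support
        simpa using this
      have hc : (0 : ℝ) < (d.choose b.support.card : ℝ) := by
        exact_mod_cast Nat.choose_pos hs
      have h3 := theta d b.support.card hs
      rw [Finset.sum_range_succ'] at h3
      have h4 : ∑ q ∈ Finset.range d, ((ascPochhammer ℕ (d+1)).coeff (q + 1 + 1) : ℝ) *
            gam d (q + 1) b.support.card = ((d + 1).factorial : ℝ) * (d.choose b.support.card : ℝ) -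
            ((ascPochhammer ℕ (d+1)).coeff 1 : ℝ) * gam d 0 b.support.card := by
        linarith
      rw [h4]
      field_simp
    rw [Finset.sum_congr rfl h2, Finset.sum_sub_distrib, ← Finset.mul_sum]
    have h5 : (∑ b ∈ BB m I, (phi m I b : ℝ)) ≤ (Module.finrank k (MvPolynomial (Fin (d + 1)) k ⧸ I) : ℝ) := by
      exact_mod_cast sum_phi_le m I
    have h0 : phi m I 0 ≠ 0 := by
      intro h
      have h1 := phi_mem m I 0
      rw [h] at h1
      have h2 : (Finsupp.cons 0 (0 : Fin d →₀ ℕ) : Fin (d + 1) →₀ ℕ) = 0 := by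
        simp
      rw [h2] at h1
      obtain ⟨f, hf, hf0, hdeg⟩ := h1
      apply hI
      have h3 := m.eq_C_of_degree_eq_zero hdeg
      have h4 : m.leadingCoeff f ≠ 0 := by
        rwa [Ne, m.leadingCoeff_eq_zero_iff]
      refine Ideal.eq_top_of_isUnit_mem I hf ?_
      rw [h3]
      exact (isUnit_iff_ne_zero.2 h4).map C
    have h6 : 0 < ∑ b ∈ BB m I, (phi m I b : ℝ) / (d.choose b.support.card : ℝ) *
              (((ascPochhammer ℕ (d+1)).coeff 1 : ℝ) * gam d 0 b.support.card) := by
      refine Finset.sum_pos' ?_ ⟨0, (mem_BB m I).2 h0, ?_⟩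
      · intro b _
        have hs : b.support.card ≤ d := by
          have := Finset.card_le_univ b.support
          simpa using this
        have := gam_nonneg d 0 b.support.card (Nat.zero_le _) hs
        positivity
      · simp only [Finsupp.support_zero, Finset.card_empty, Nat.choose_zero_right, gam_zero_zero]
        have : 0 < (phi m I 0 : ℝ) := by exact_mod_cast Nat.pos_of_ne_zero h0
        positivity
    have h7 : ((d + 1).factorial : ℝ) * (∑ b ∈ BB m I, (phi m I b : ℝ)) ≤ ((d + 1).factorial : ℝ) *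
        (Module.finrank k (MvPolynomial (Fin (d + 1)) k ⧸ I) : ℝ) := by
      exact mul_le_mul_of_nonneg_left h5 (by positivity)
    linarith
  have := (hlim.eventually_le_const hval).and (eventually_gt_atTop 0)
  obtain ⟨N, hN, hN0⟩ := this.exists
  exact ⟨N, hN0, hN⟩

end Pool.Agent.W461.SL
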