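import Mathlib
import Pool.Agent.W461.SL.Poly

set_option autoImplicit false

open MvPolynomial MonomialOrder Filter Topology

namespace Pool.Agent.W461.SL

variable {k : Type*} [Field k] {d : ℕ}

lemma det_poly {q i : ℕ} (h : q + 1 + i = d + 1) :
    ∃ P : MvPolynomial (Fin d × Fin (d + 1)) k, P ≠ 0 ∧
      ∀ c : Fin d → Fin (d + 1) → k, eval (fun p => c p.1 p.2) P ≠ 0 → (BM h c).det ≠ 0 := by
  classical
  set A : Matrix (Fin i) (Fin i) (MvPolynomial (Fin d × Fin (d + 1)) k) :=
    Matrix.of fun j s => X ((⟨j.val, by omega⟩ : Fin d), spl h (Sum.inr s)) with hA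
  have hev : ∀ c : Fin d → Fin (d + 1) → k, eval (fun p => c p.1 p.2) A.det = (BM h c).det := by
    intro c
    rw [RingHom.map_det]
    congr 1
    ext a b
    simp [hA, BM]
  refine ⟨A.det, ?_, ?_⟩
  · intro h0
    have h1 := hev (fun j t => if hj : j.val < i then (if t = spl h (Sum.inr ⟨j.val, hj⟩) then 1 else 0) else 0)
    rw [h0, map_zero] at h1
    have h2 : BM h (fun (j : Fin d) t => if hj : j.val < i then
        (if t = spl h (Sum.inr ⟨j.val, hj⟩) then (1 : k) else 0) else 0) = 1 := by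
      ext a b
      simp only [BM, Matrix.of_apply, Matrix.one_apply, a.2, dif_pos]
      by_cases hab : a = b
      · subst hab; simp
      · have : ¬ (b = a) := fun h => hab h.symm
        simp [hab, this]
    rw [h2, Matrix.det_one] at h1
    exact zero_ne_one h1
  · intro c hc
    rwa [hev] at hc

theorem poly_main (I : Ideal (MvPolynomial (Fin (d + 1)) k))
    [Module.Finite k (MvPolynomial (Fin (d + 1)) k ⧸ I)] (hI : I ≠ ⊤) :
    ∃ P : MvPolynomial (Fin d × Fin (d + 1)) k, P ≠ 0 ∧ ∃ N : ℕ, 0 < N ∧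
      ∀ c : Fin d → Fin (d + 1) → k, eval (fun p => c p.1 p.2) P ≠ 0 →
        (∀ i : Fin d, ∀ M : ℕ, 0 < M →
          Module.finrank k (MvPolynomial (Fin (d + 1)) k ⧸ (I ^ (N * M) ⊔ LI c i.val)) ≤
            M ^ (d + 1 - i.val) *
              Module.finrank k (MvPolynomial (Fin (d + 1)) k ⧸ (I ^ N ⊔ LI c i.val))) ∧
        ∑ i : Fin d, ((ascPochhammer ℕ (d+1)).coeff (d+1-i.val) : ℝ) *
          (((d + 1 - i.val).factorial : ℝ) *
            (Module.finrank k (MvPolynomial (Fin (d + 1)) k ⧸ (I ^ N ⊔ LI c i.val)) : ℝ) /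
              (N : ℝ) ^ (d + 1 - i.val)) ≤
          ((d + 1).factorial : ℝ) *
            (Module.finrank k (MvPolynomial (Fin (d + 1)) k ⧸ I) : ℝ) := by
  classical
  set m : MonomialOrder (Fin (d + 1)) := MonomialOrder.lex with hm
  obtain ⟨N, hN, hNle⟩ := exists_N m I hI
  have hfinN : Module.Finite k (MvPolynomial (Fin (d + 1)) k ⧸ I ^ N) := (pow_quot_bound m I N hN).1
  have hs : ∀ (σ : Equiv.Perm (Fin d)) (i : Fin d), ∃ P : MvPolynomial (Fin d × Fin (d + 1)) k, P ≠ 0 ∧
      ∀ c : Fin d → Fin (d + 1) → k, eval (fun p => c p.1 p.2) P ≠ 0 →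
        Module.finrank k (MvPolynomial (Fin (d + 1)) k ⧸ (I ^ N ⊔ LI c i.val)) ≤
        Module.finrank k (MvPolynomial (Fin (d + 1)) k ⧸ (I ^ N ⊔ LI (cσ (k := k) σ) i.val)) := by
    intro σ i
    obtain ⟨P, h1, h2⟩ := semicont (I ^ N) i.val i.2.le (cσ (k := k) σ)
    refine ⟨P, ?_, h2⟩
    rintro rfl
    exact h1 (map_zero _)
  choose Ps hPs0 hPs using hs
  have hd : ∀ i : Fin d, ∃ P : MvPolynomial (Fin d × Fin (d + 1)) k, P ≠ 0 ∧
      ∀ c : Fin d → Fin (d + 1) → k, eval (fun p => c p.1 p.2) P ≠ 0 →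
        (BM (d := d) (q := d - i.val) (i := i.val) (by have := i.2; omega) c).det ≠ 0 :=
    fun i => det_poly _
  choose Pd hPd0 hPd using hd
  refine ⟨(∏ σ, ∏ i, Ps σ i) * ∏ i, Pd i, ?_, N, hN, ?_⟩
  · refine mul_ne_zero ?_ ?_
    · exact Finset.prod_ne_zero_iff.2 fun σ _ => Finset.prod_ne_zero_iff.2 fun i _ => hPs0 σ i
    · exact Finset.prod_ne_zero_iff.2 fun i _ => hPd0 i
  · intro c hc
    rw [map_mul, map_prod, map_prod] at hc
    have hc1 := left_ne_zero_of_mul hc
    have hc2 := right_ne_zero_of_mul hc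
    have hc1' : ∀ σ i, eval (fun p => c p.1 p.2) (Ps σ i) ≠ 0 := by
      intro σ i
      have := Finset.prod_ne_zero_iff.1 hc1 σ (Finset.mem_univ _)
      rw [map_prod] at this
      exact Finset.prod_ne_zero_iff.1 this i (Finset.mem_univ _)
    have hc2' : ∀ i, eval (fun p => c p.1 p.2) (Pd i) ≠ 0 := fun i =>
      Finset.prod_ne_zero_iff.1 hc2 i (Finset.mem_univ _)
    constructor
    · intro i M hM
      have hfin : Module.Finite k (MvPolynomial (Fin (d + 1)) k ⧸ (I ^ N ⊔ LI c i.val)) :=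
        finite_quot_sup _ _
      have h := (lin_bound (d := d) (q := d - i.val) (i := i.val) (by have := i.2; omega) c
        (hPd i c (hc2' i)) (I ^ N) M hM).2
      rw [← pow_mul] at h
      have e : d + 1 - i.val = d - i.val + 1 := by have := i.2; omega
      rw [e]
      exact h
    · refine le_trans (Finset.sum_le_sum fun i _ => ?_) hNle
      refine mul_le_mul_of_nonneg_left ?_ (Nat.cast_nonneg _)
      refine div_le_div_of_nonneg_right ?_ (by positivity)
      refine mul_le_mul_of_nonneg_left ?_ (Nat.cast_nonneg _)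
      refine avg_bound m I (d - i.val) (Nat.sub_le _ _) N hN _ fun σ => ?_
      have e : d - (d - i.val) = i.val := by have := i.2; omega
      rw [e]
      exact hPs σ i c (hc1' σ i)

end Pool.Agent.W461.SL
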