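import Mathlib
import Pool.Agent.W461.SL.Main

set_option autoImplicit false

open Filter Topology

namespace Pool.Agent.W461.SL

variable {k : Type*} [Field k] {d : ℕ}

/-- the ideal of the origin -/
noncomputable def mm (k : Type*) [Field k] (d : ℕ) : Ideal (MvPowerSeries (Fin (d + 1)) k) :=
  Ideal.span (Set.range (MvPowerSeries.X : Fin (d + 1) → MvPowerSeries (Fin (d + 1)) k))

lemma mem_pow_mm (r : ℕ) (f : MvPowerSeries (Fin (d + 1)) k)
    (hf : ∀ a : Fin (d + 1) →₀ ℕ, a.degree < r → MvPowerSeries.coeff a f = 0) : f ∈ mm k d ^ r := by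
  classical
  induction r generalizing f with
  | zero => simp
  | succ r ih =>
    let g : Fin (d + 1) → MvPowerSeries (Fin (d + 1)) k := fun t a =>
      if ∀ s < t, a s = 0 then MvPowerSeries.coeff (a + Finsupp.single t 1) f else 0
    have hg : ∀ t a, MvPowerSeries.coeff a (g t) =
        if ∀ s < t, a s = 0 then MvPowerSeries.coeff (a + Finsupp.single t 1) f else 0 := fun _ _ => rfl
    have hfg : f = ∑ t, MvPowerSeries.X t * g t := by
      ext a
      rw [map_sum]
      by_cases ha : a = 0
      · subst ha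
        rw [hf 0 (by simp)]
        symm
        refine Finset.sum_eq_zero fun t _ => ?_
        rw [MvPowerSeries.X, MvPowerSeries.coeff_monomial_mul, if_neg]
        intro h
        have := h t
        simp at this
      · have hex : ∃ t, a t ≠ 0 := by
          by_contra h
          push Not at h
          exact ha (Finsupp.ext h)
        set t₀ := (Finset.univ.filter (fun t => a t ≠ 0)).min' (by
          obtain ⟨t, ht⟩ := hex
          exact ⟨t, by simp [ht]⟩) with ht₀
        have h0 : a t₀ ≠ 0 := by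
          have := Finset.min'_mem (Finset.univ.filter (fun t => a t ≠ 0)) (by
            obtain ⟨t, ht⟩ := hex
            exact ⟨t, by simp [ht]⟩)
          exact (Finset.mem_filter.1 this).2
        have h1 : ∀ s < t₀, a s = 0 := by
          intro s hs
          by_contra hne
          have := Finset.min'_le (Finset.univ.filter (fun t => a t ≠ 0)) s (by simp [hne])
          exact absurd hs (not_lt.2 this)
        rw [Finset.sum_eq_single t₀]
        · rw [MvPowerSeries.X, MvPowerSeries.coeff_monomial_mul, if_pos, hg, if_pos, one_mul]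
          · congr 2
            ext s
            simp only [Finsupp.add_apply, Finsupp.tsub_apply]
            by_cases hs : s = t₀
            · rw [hs]; simp only [Finsupp.single_eq_same]; omega
            · rw [Finsupp.single_eq_of_ne hs]; simp
          · intro s hs
            simp [h1 s hs]
          · rw [Finsupp.single_le_iff]; omega
        · intro t _ htne
          rw [MvPowerSeries.X, MvPowerSeries.coeff_monomial_mul]
          split_ifs with h
          · rw [Finsupp.single_le_iff] at h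
            rw [hg, if_neg, mul_zero]
            intro hall
            have hle : t₀ ≤ t := Finset.min'_le _ _ (by simp; omega)
            have hlt : t₀ < t := lt_of_le_of_ne hle (Ne.symm htne)
            have := hall t₀ hlt
            rw [Finsupp.tsub_apply, Finsupp.single_eq_of_ne hlt.ne, tsub_zero] at this
            exact h0 this
          · rfl
        · simp
    rw [hfg, pow_succ']
    refine Ideal.sum_mem _ fun t _ => ?_
    refine Ideal.mul_mem_mul (Ideal.subset_span ⟨t, rfl⟩) (ih _ ?_)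
    intro a ha
    rw [hg]
    split_ifs with h
    · apply hf
      rw [map_add, Finsupp.degree_single]
      omega
    · rfl

/-- the inclusion of the polynomial ring -/
noncomputable def inc (k : Type*) [Field k] (d : ℕ) :
    MvPolynomial (Fin (d + 1)) k →ₐ[k] MvPowerSeries (Fin (d + 1)) k :=
  MvPolynomial.coeToMvPowerSeries.algHom k

lemma inc_apply (p : MvPolynomial (Fin (d + 1)) k) :
    inc k d p = (p : MvPowerSeries (Fin (d + 1)) k) := by
  simp [inc, MvPolynomial.coeToMvPowerSeries.algHom_apply]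

lemma exists_poly (r : ℕ) (f : MvPowerSeries (Fin (d + 1)) k) :
    ∃ p : MvPolynomial (Fin (d + 1)) k, inc k d p - f ∈ mm k d ^ r := by
  refine ⟨MvPowerSeries.truncTotal r f, mem_pow_mm r _ ?_⟩
  intro a ha
  rw [inc_apply, map_sub, MvPolynomial.coeff_coe, MvPowerSeries.coeff_truncTotal _ ha, sub_self]

lemma quot_surj (J : Ideal (MvPowerSeries (Fin (d + 1)) k)) (r : ℕ) (hr : mm k d ^ r ≤ J)
    (K : Ideal (MvPolynomial (Fin (d + 1)) k)) (hK : K ≤ J.comap (inc k d)) :
    Function.Surjective (Ideal.quotientMapₐ J (inc k d) hK) := by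
  intro x
  obtain ⟨f, rfl⟩ := Ideal.Quotient.mk_surjective x
  obtain ⟨p, hp⟩ := exists_poly r f
  refine ⟨Ideal.Quotient.mk K p, ?_⟩
  have h4 : Ideal.quotientMapₐ J (inc k d) hK (Ideal.Quotient.mk K p) =
    Ideal.Quotient.mk J (inc k d p) := rfl
  rw [h4, Ideal.Quotient.eq]
  exact hr hp

lemma length_eq (J : Ideal (MvPowerSeries (Fin (d + 1)) k)) :
    Module.length k (MvPowerSeries (Fin (d + 1)) k ⧸ J) =
      Module.length (MvPowerSeries (Fin (d + 1)) k) (MvPowerSeries (Fin (d + 1)) k ⧸ J) := by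
  rw [IsLocalRing.length_restrictScalars k (MvPowerSeries (Fin (d + 1)) k)]
  have h1 : Function.Surjective (algebraMap (IsLocalRing.ResidueField k)
      (IsLocalRing.ResidueField (MvPowerSeries (Fin (d + 1)) k))) := by
    intro x
    obtain ⟨f, rfl⟩ := IsLocalRing.residue_surjective x
    refine ⟨IsLocalRing.residue k (MvPowerSeries.constantCoeff f), ?_⟩
    rw [IsLocalRing.ResidueField.algebraMap_residue]
    refine (Ideal.Quotient.eq).2 ?_
    rw [IsLocalRing.mem_maximalIdeal, mem_nonunits_iff, MvPowerSeries.isUnit_iff_constantCoeff,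
      MvPowerSeries.algebraMap_apply]
    simp
  rw [Module.length_eq_of_surjective h1]
  simp

lemma finite_quot_R (J : Ideal (MvPowerSeries (Fin (d + 1)) k)) (r : ℕ) (hr : mm k d ^ r ≤ J)
    (K : Ideal (MvPolynomial (Fin (d + 1)) k)) (hK : K ≤ J.comap (inc k d))
    [Module.Finite k (MvPolynomial (Fin (d + 1)) k ⧸ K)] :
    Module.Finite k (MvPowerSeries (Fin (d + 1)) k ⧸ J) ∧
    (Module.length (MvPowerSeries (Fin (d + 1)) k) (MvPowerSeries (Fin (d + 1)) k ⧸ J)).toNat ≤
      Module.finrank k (MvPolynomial (Fin (d + 1)) k ⧸ K) := by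
  have hs := quot_surj J r hr K hK
  have hf : Module.Finite k (MvPowerSeries (Fin (d + 1)) k ⧸ J) :=
    Module.Finite.of_surjective (Ideal.quotientMapₐ J (inc k d) hK).toLinearMap hs
  refine ⟨hf, ?_⟩
  rw [← length_eq, Module.length_eq_finrank]
  exact LinearMap.finrank_le_finrank_of_surjective
    (f := (Ideal.quotientMapₐ J (inc k d) hK).toLinearMap) hs

lemma pow_mm_le_comap (J : Ideal (MvPowerSeries (Fin (d + 1)) k)) (r : ℕ) (hr : mm k d ^ r ≤ J) :
    (Ideal.span (Set.range (MvPolynomial.X : Fin (d + 1) → MvPolynomial (Fin (d + 1)) k))) ^ r ≤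
      J.comap (inc k d) := by
  rw [← Ideal.map_le_iff_le_comap, Ideal.map_pow]
  refine le_trans (Ideal.pow_right_mono ?_ r) hr
  rw [Ideal.map_span, ← Set.range_comp]
  refine Ideal.span_mono ?_
  rintro _ ⟨t, rfl⟩
  exact ⟨t, by simp [inc_apply]⟩

lemma finite_comap (J : Ideal (MvPowerSeries (Fin (d + 1)) k)) (r : ℕ) (hr : mm k d ^ r ≤ J) :
    Module.Finite k (MvPolynomial (Fin (d + 1)) k ⧸ J.comap (inc k d)) := by
  classical
  have h1 := pow_mm_le_comap J r hr
  have hfin : {a : Fin (d + 1) →₀ ℕ | a.degree < r}.Finite := by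
    exact Finsupp.finite_of_degree_le r |>.subset (by intro a (ha : a.degree < r); exact le_of_lt ha)
  refine finite_quot MonomialOrder.lex _ hfin.toFinset ?_
  intro a ha
  rw [Set.Finite.mem_toFinset, Set.mem_ofPred_eq, not_lt] at ha
  refine E_monomial _ (h1 ?_)
  exact (MvPolynomial.monomial_mem_pow_idealOfVars_iff r a one_ne_zero).2 ha

lemma finrank_comap_le (J : Ideal (MvPowerSeries (Fin (d + 1)) k)) (r : ℕ) (hr : mm k d ^ r ≤ J) :
    Module.finrank k (MvPolynomial (Fin (d + 1)) k ⧸ J.comap (inc k d)) =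
    (Module.length (MvPowerSeries (Fin (d + 1)) k) (MvPowerSeries (Fin (d + 1)) k ⧸ J)).toNat := by
  have := finite_comap J r hr
  obtain ⟨hf, hle⟩ := finite_quot_R J r hr (J.comap (inc k d)) le_rfl
  refine le_antisymm ?_ hle
  rw [← length_eq, Module.length_eq_finrank]
  exact LinearMap.finrank_le_finrank_of_injective
    (f := (Ideal.quotientMapₐ J (inc k d) le_rfl).toLinearMap) Ideal.quotientMap_injective

/-- the ideal of the first linear forms in the power series ring -/
noncomputable def LR (c : Fin d → Fin (d + 1) → k) (i : ℕ) : Ideal (MvPowerSeries (Fin (d + 1)) k) :=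
  Ideal.span {f : MvPowerSeries (Fin (d+1)) k |
    ∃ j : Fin d, j.val < i ∧ f = ∑ t : Fin (d+1), c j t • (MvPowerSeries.X t : MvPowerSeries (Fin (d+1)) k)}

lemma LI_le (c : Fin d → Fin (d + 1) → k) (i : ℕ) : LI c i ≤ (LR c i).comap (inc k d) := by
  unfold LI
  rw [Ideal.span_le]
  rintro f ⟨j, hj, rfl⟩
  refine Ideal.subset_span ⟨j, hj, ?_⟩
  rw [map_sum]
  refine Finset.sum_congr rfl fun t _ => ?_
  rw [map_smul, inc_apply, MvPolynomial.coe_X]

theorem main (I : Ideal (MvPowerSeries (Fin (d+1)) k))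
    (hI : I.radical = Ideal.span (Set.range (MvPowerSeries.X : Fin (d+1) → MvPowerSeries (Fin (d+1)) k))) :
    ∃ P : MvPolynomial (Fin d × Fin (d+1)) k, P ≠ 0 ∧
      ∀ c : Fin d → Fin (d+1) → k, MvPolynomial.eval (fun p => c p.1 p.2) P ≠ 0 →
        ∀ e : Fin d → ℝ,
          (∀ i : Fin d, Filter.Tendsto
            (fun n : ℕ => ((Nat.factorial (d+1-i.val) : ℝ) *
              ((Module.length (MvPowerSeries (Fin (d+1)) k)
                (MvPowerSeries (Fin (d+1)) k ⧸ (I ^ n ⊔ LR c i.val))).toNat : ℝ))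
              / (n : ℝ) ^ (d+1-i.val))
            Filter.atTop (nhds (e i))) →
          ∑ i : Fin d, ((ascPochhammer ℕ (d+1)).coeff (d+1-i.val) : ℝ) * e i
            ≤ (Nat.factorial (d+1) : ℝ) *
              ((Module.length (MvPowerSeries (Fin (d+1)) k)
                (MvPowerSeries (Fin (d+1)) k ⧸ I)).toNat : ℝ) := by
  classical
  have hfg : (mm k d).FG := ⟨Finset.univ.image MvPowerSeries.X, by
    unfold mm; simp⟩
  obtain ⟨r, hr⟩ := Ideal.exists_pow_le_of_le_radical_of_fg (I := mm k d) (J := I) (by rw [hI]; exact le_rfl) hfg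
  have hItop : I ≠ ⊤ := by
    intro h
    rw [h, Ideal.radical_top] at hI
    have h1 : (1 : MvPowerSeries (Fin (d+1)) k) ∈ Ideal.span (Set.range
        (MvPowerSeries.X : Fin (d+1) → MvPowerSeries (Fin (d+1)) k)) := by
      rw [← hI]; trivial
    have h2 : Ideal.span (Set.range
        (MvPowerSeries.X : Fin (d+1) → MvPowerSeries (Fin (d+1)) k)) ≤
        RingHom.ker (MvPowerSeries.constantCoeff (σ := Fin (d + 1)) (R := k)) := by
      rw [Ideal.span_le]
      rintro _ ⟨t, rfl⟩
      simp [RingHom.mem_ker]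
    have h3 := h2 h1
    rw [RingHom.mem_ker, map_one] at h3
    exact one_ne_zero h3
  set IS : Ideal (MvPolynomial (Fin (d + 1)) k) := I.comap (inc k d) with hIS
  have hfin : Module.Finite k (MvPolynomial (Fin (d + 1)) k ⧸ IS) := finite_comap I r hr
  have hIStop : IS ≠ ⊤ := Ideal.comap_ne_top _ hItop
  obtain ⟨P, hP0, N, hN, hP⟩ := poly_main IS hIStop
  refine ⟨P, hP0, fun c hc e he => ?_⟩
  obtain ⟨h1, h2⟩ := hP c hc
  have hrank := finrank_comap_le I r hr
  rw [← hIS] at hrank
  rw [← hrank]
  refine le_trans (Finset.sum_le_sum fun i _ => ?_) h2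
  refine mul_le_mul_of_nonneg_left ?_ (Nat.cast_nonneg _)
  -- the limit along the multiples of N
  have h3 : Tendsto (fun M : ℕ => N * M) atTop atTop :=
    tendsto_id.const_mul_atTop' hN
  have h4 := (he i).comp h3
  refine le_of_tendsto h4 ?_
  filter_upwards [eventually_gt_atTop 0] with M hM
  have hNM : 0 < N * M := Nat.mul_pos hN hM
  have hfin1 : Module.Finite k (MvPolynomial (Fin (d + 1)) k ⧸ IS ^ (N * M)) :=
    (pow_quot_bound MonomialOrder.lex IS (N * M) hNM).1
  have hfin2 : Module.Finite k (MvPolynomial (Fin (d + 1)) k ⧸ (IS ^ (N * M) ⊔ LI c i.val)) :=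
    finite_quot_sup _ _
  have hKle : IS ^ (N * M) ⊔ LI c i.val ≤ (I ^ (N * M) ⊔ LR c i.val).comap (inc k d) := by
    refine sup_le ?_ ?_
    · refine le_trans (Ideal.le_comap_pow _ _) (Ideal.comap_mono le_sup_left)
    · exact (LI_le c i.val).trans (Ideal.comap_mono le_sup_right)
  have hrle : mm k d ^ (r * (N * M)) ≤ I ^ (N * M) ⊔ LR c i.val := by
    rw [pow_mul]
    exact (Ideal.pow_right_mono hr _).trans le_sup_left
  have h5 := (finite_quot_R (I ^ (N * M) ⊔ LR c i.val) _ hrle _ hKle).2
  have h6 := h5.trans (h1 i M hM)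
  have h7 : ((Module.length (MvPowerSeries (Fin (d+1)) k)
                (MvPowerSeries (Fin (d+1)) k ⧸ (I ^ (N * M) ⊔ LR c i.val))).toNat : ℝ) ≤
      (M : ℝ) ^ (d + 1 - i.val) *
        (Module.finrank k (MvPolynomial (Fin (d + 1)) k ⧸ (IS ^ N ⊔ LI c i.val)) : ℝ) := by
    exact_mod_cast h6
  have hN' : (0 : ℝ) < N := by exact_mod_cast hN
  have hM' : (0 : ℝ) < M := by exact_mod_cast hM
  simp only [Function.comp_apply]
  rw [div_le_div_iff₀ (by positivity) (by positivity)]
  push_cast
  rw [mul_pow]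
  have hf : (0 : ℝ) ≤ ((d + 1 - i.val).factorial : ℝ) * (N : ℝ) ^ (d + 1 - i.val) := by positivity
  calc ((d + 1 - i.val).factorial : ℝ) * ((Module.length (MvPowerSeries (Fin (d+1)) k)
                (MvPowerSeries (Fin (d+1)) k ⧸ (I ^ (N * M) ⊔ LR c i.val))).toNat : ℝ) *
          (N : ℝ) ^ (d + 1 - i.val)
      = (((d + 1 - i.val).factorial : ℝ) * (N : ℝ) ^ (d + 1 - i.val)) *
        ((Module.length (MvPowerSeries (Fin (d+1)) k)
                (MvPowerSeries (Fin (d+1)) k ⧸ (I ^ (N * M) ⊔ LR c i.val))).toNat : ℝ) := by ring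
    _ ≤ (((d + 1 - i.val).factorial : ℝ) * (N : ℝ) ^ (d + 1 - i.val)) *
        ((M : ℝ) ^ (d + 1 - i.val) *
        (Module.finrank k (MvPolynomial (Fin (d + 1)) k ⧸ (IS ^ N ⊔ LI c i.val)) : ℝ)) :=
        mul_le_mul_of_nonneg_left h7 hf
    _ = _ := by ring

end Pool.Agent.W461.SL
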